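import Pool.Agent.helper62.Sieg.Good
import Pool.Agent.helper24.BV.SW
import Pool.Agent.helper24.BV.PNTerr
import Pool.Agent.helper10.BV.D1
import Pool.Agent.helper10.BV.D4
import Pool.Agent.helper10.BV.D16

/-!
# The Siegel-Walfisz theorem for all large `x`

`psiChi χ y ≪ x/(log x)^A` for every nonprincipal `χ` mod `q ≤ (log x)^B`, and
`θ(y;q,a) = y/φ(q) + O(x/(log x)^A)`, `ψ(y;q,a) = y/φ(q) + O(x/(log x)^A)`.
-/

set_option autoImplicit false

open Finset ArithmeticFunction Complex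

namespace Pool.Agent.helper62.Sieg

open BVM

theorem psiChi_sub_primitive_le {q : ℕ} (hq : q ≠ 0) (χ : DirichletCharacter ℂ q) (t : ℕ) :
    ‖psiChi χ t - psiChi χ.primitiveCharacter t‖ ≤ 2 * Real.log q * Real.log t := by
  classical
  have hdiff : psiChi χ t - psiChi χ.primitiveCharacter t =
      ∑ n ∈ Icc 1 t, ((vonMangoldt n : ℝ) : ℂ) *
        (χ (n : ZMod q) - χ.primitiveCharacter (n : ZMod χ.conductor)) := by
    unfold psiChi
    rw [← Finset.sum_sub_distrib]
    refine Finset.sum_congr rfl fun n _ => ?_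
    ring
  rw [hdiff]
  have hterm : ∀ n ∈ Icc 1 t, ‖((vonMangoldt n : ℝ) : ℂ) *
        (χ (n : ZMod q) - χ.primitiveCharacter (n : ZMod χ.conductor))‖ ≤
        if ¬ n.Coprime q then vonMangoldt n else 0 := by
    intro n _
    by_cases hn : n.Coprime q
    · have h1 : IsCoprime (n : ℤ) (q : ℤ) := Nat.isCoprime_iff_coprime.mpr hn
      have h2 := DirichletCharacter.primitiveCharacter_apply_of_isCoprime (χ := χ) h1
      have h3 : χ.primitiveCharacter (n : ZMod χ.conductor) = χ (n : ZMod q) := by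
        have e1 : (((n : ℤ)) : ZMod χ.conductor) = (n : ZMod χ.conductor) := by push_cast; rfl
        have e2 : (((n : ℤ)) : ZMod q) = (n : ZMod q) := by push_cast; rfl
        rw [e1, e2] at h2
        exact h2
      rw [h3, sub_self, mul_zero, norm_zero, if_neg (not_not.2 hn)]
    · rw [if_pos hn]
      have h1 : χ (n : ZMod q) = 0 := by
        apply χ.map_nonunit
        rw [ZMod.isUnit_iff_coprime]
        exact hn
      rw [h1, zero_sub, norm_mul, norm_neg]
      have h2 : ‖χ.primitiveCharacter (n : ZMod χ.conductor)‖ ≤ 1 :=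
        DirichletCharacter.norm_le_one _ _
      have h4 : ‖((vonMangoldt n : ℝ) : ℂ)‖ = vonMangoldt n := by
        rw [Complex.norm_real, Real.norm_of_nonneg vonMangoldt_nonneg]
      rw [h4]
      have hv : 0 ≤ vonMangoldt n := vonMangoldt_nonneg
      calc vonMangoldt n * ‖χ.primitiveCharacter (n : ZMod χ.conductor)‖ ≤ vonMangoldt n * 1 :=
            mul_le_mul_of_nonneg_left h2 hv
        _ = vonMangoldt n := mul_one _
  calc _ ≤ ∑ n ∈ Icc 1 t, ‖((vonMangoldt n : ℝ) : ℂ) *
        (χ (n : ZMod q) - χ.primitiveCharacter (n : ZMod χ.conductor))‖ := norm_sum_le _ _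
    _ ≤ ∑ n ∈ Icc 1 t, (if ¬ n.Coprime q then vonMangoldt n else 0) :=
        Finset.sum_le_sum hterm
    _ = ∑ n ∈ (Icc 1 t).filter (fun n => ¬ n.Coprime q), vonMangoldt n := by
        rw [Finset.sum_filter]
    _ ≤ 2 * Real.log q * Real.log t := sum_not_coprime_le hq _

/-- orthogonality without the principal character -/
theorem orth {q a : ℕ} (hq : q ≠ 0) (ha : a.Coprime q) (n : ℕ) :
    (((if n ≡ a [MOD q] then (1 : ℝ) else 0)
      - (if n.Coprime q then 1 / (q.totient : ℝ) else 0) : ℝ) : ℂ)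
      = (1 / (q.totient : ℂ)) * ∑ χ ∈ nonPrin q, χ ((a : ZMod q)⁻¹) * χ (n : ZMod q) := by
  classical
  have : NeZero q := ⟨hq⟩
  have hu : IsUnit (a : ZMod q) := (ZMod.isUnit_iff_coprime a q).2 ha
  have hset : nonPrin q = Finset.univ.erase (1 : DirichletCharacter ℂ q) := by
    ext χ
    rw [mem_nonPrin hq, Finset.mem_erase]
    simp
  have htot : (q.totient : ℂ) ≠ 0 := by
    have : 0 < q.totient := Nat.totient_pos.2 (Nat.pos_of_ne_zero hq)
    exact_mod_cast this.ne'
  have h1 : (1 : DirichletCharacter ℂ q) ((a : ZMod q)⁻¹) = 1 := by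
    have h2 : (1 : DirichletCharacter ℂ q) ((a : ZMod q)⁻¹ * (a : ZMod q)) = 1 := by
      rw [ZMod.inv_mul_of_unit _ hu, map_one]
    rw [map_mul, MulChar.one_apply hu, mul_one] at h2
    exact h2
  rw [hset, Finset.sum_erase_eq_sub (Finset.mem_univ _),
    DirichletCharacter.sum_char_inv_mul_char_eq ℂ hu, h1, one_mul, mul_sub]
  have e1 : ((a : ZMod q) = (n : ZMod q)) ↔ n ≡ a [MOD q] := by
    rw [eq_comm]
    exact ZMod.natCast_eq_natCast_iff n a q
  by_cases hn : n.Coprime q
  · have h3 : (1 : DirichletCharacter ℂ q) (n : ZMod q) = 1 :=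
      MulChar.one_apply ((ZMod.isUnit_iff_coprime n q).2 hn)
    rw [h3]
    by_cases hm : n ≡ a [MOD q]
    · rw [if_pos hm, if_pos hn, if_pos (e1.2 hm)]
      push_cast
      field_simp
    · rw [if_neg hm, if_pos hn, if_neg (fun h => hm (e1.1 h))]
      push_cast
      ring
  · have h3 : (1 : DirichletCharacter ℂ q) (n : ZMod q) = 0 :=
      MulChar.map_nonunit _ (fun h => hn ((ZMod.isUnit_iff_coprime n q).1 h))
    rw [h3]
    have hm : ¬ n ≡ a [MOD q] := by
      intro hm
      apply hn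
      have h4 : Nat.gcd n q = Nat.gcd a q := Nat.ModEq.gcd_eq hm
      rw [Nat.Coprime, h4]
      exact ha
    rw [if_neg hm, if_neg hn, if_neg (fun h => hm (e1.1 h))]
    simp

theorem card_nonPrin_le {q : ℕ} (hq : q ≠ 0) : (nonPrin q).card ≤ q.totient := by
  classical
  have : NeZero q := ⟨hq⟩
  have h1 : (nonPrin q).card ≤ (Finset.univ : Finset (DirichletCharacter ℂ q)).card :=
    Finset.card_le_card (fun _ _ => Finset.mem_univ _)
  have h2 : (Finset.univ : Finset (DirichletCharacter ℂ q)).card = q.totient := by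
    rw [Finset.card_univ, ← Nat.card_eq_fintype_card]
    exact DirichletCharacter.card_eq_totient_of_hasEnoughRootsOfUnity ℂ q
  omega

theorem EE_le {q a : ℕ} (hq : q ≠ 0) (ha : a.Coprime q) (t : ℕ) {K : ℝ} (hK0 : 0 ≤ K)
    (hK : ∀ χ : DirichletCharacter ℂ q, χ ≠ 1 → ‖psiChi χ t‖ ≤ K) : |EE q a t| ≤ K := by
  classical
  have hφ : (0 : ℝ) < q.totient := by exact_mod_cast Nat.totient_pos.2 (Nat.pos_of_ne_zero hq)
  have hkey : ((EE q a t : ℝ) : ℂ)
      = (1 / (q.totient : ℂ)) * ∑ χ ∈ nonPrin q, χ ((a : ZMod q)⁻¹) * psiChi χ t := by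
    have h1 : ((EE q a t : ℝ) : ℂ) = ∑ n ∈ Icc 1 t, ((vonMangoldt n : ℝ) : ℂ)
        * ((1 / (q.totient : ℂ)) * ∑ χ ∈ nonPrin q, χ ((a : ZMod q)⁻¹) * χ (n : ZMod q)) := by
      unfold EE ee
      rw [Complex.ofReal_sum]
      apply Finset.sum_congr rfl
      intro n _
      rw [← orth hq ha n]
      push_cast
      ring
    rw [h1]
    simp only [psiChi, Finset.mul_sum]
    rw [Finset.sum_comm]
    apply Finset.sum_congr rfl
    intro χ _
    apply Finset.sum_congr rfl
    intro n _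
    ring
  have h3 : |EE q a t| = ‖((EE q a t : ℝ) : ℂ)‖ := by
    rw [Complex.norm_real, Real.norm_eq_abs]
  rw [h3, hkey, norm_mul]
  have h4 : ‖(1 / (q.totient : ℂ))‖ = 1 / (q.totient : ℝ) := by
    rw [norm_div, norm_one, Complex.norm_natCast]
  rw [h4]
  have h5 : ‖∑ χ ∈ nonPrin q, χ ((a : ZMod q)⁻¹) * psiChi χ t‖ ≤ q.totient * K := by
    calc ‖∑ χ ∈ nonPrin q, χ ((a : ZMod q)⁻¹) * psiChi χ t‖ ≤ ∑ χ ∈ nonPrin q, K := by
          refine le_trans (norm_sum_le _ _) (Finset.sum_le_sum fun χ hχ => ?_)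
          rw [norm_mul]
          have h6 : ‖χ ((a : ZMod q)⁻¹)‖ ≤ 1 := DirichletCharacter.norm_le_one χ _
          have h7 := hK χ ((mem_nonPrin hq χ).1 hχ)
          calc _ ≤ 1 * K := mul_le_mul h6 h7 (norm_nonneg _) zero_le_one
            _ = K := one_mul K
      _ = (nonPrin q).card * K := by rw [Finset.sum_const, nsmul_eq_mul]
      _ ≤ _ := mul_le_mul_of_nonneg_right (by exact_mod_cast card_nonPrin_le hq) hK0
  calc 1 / (q.totient : ℝ) * ‖∑ χ ∈ nonPrin q, χ ((a : ZMod q)⁻¹) * psiChi χ t‖ ≤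
        1 / (q.totient : ℝ) * (q.totient * K) := mul_le_mul_of_nonneg_left h5 (by positivity)
    _ = K := by
        field_simp

/-- powers of the logarithm against `√x` -/
theorem log_pow_le (n : ℕ) {x : ℝ} (hx : 1 ≤ x) : Real.log x ^ n ≤ 2 ^ n * n.factorial * Real.sqrt x := by
  have h0 : 0 ≤ Real.log x := Real.log_nonneg hx
  have h1 := Real.pow_div_factorial_le_exp (Real.log x / 2) (by linarith) n
  have h2 : Real.exp (Real.log x / 2) = Real.sqrt x := by
    rw [Real.sqrt_eq_rpow, Real.rpow_def_of_pos (by linarith)]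
    congr 1
    ring
  rw [h2, div_le_iff₀ (by positivity), div_pow, div_le_iff₀ (by positivity)] at h1
  refine h1.trans (le_of_eq (by ring))

/-- the Siegel-Walfisz theorem for all nonprincipal characters -/
theorem sw_all (A B : ℕ) : ∃ C x₀ : ℝ, 0 ≤ C ∧ 3 ≤ x₀ ∧ ∀ x : ℝ, x₀ ≤ x → ∀ q : ℕ, 1 ≤ q →
    (q : ℝ) ≤ Real.log x ^ B → ∀ χ : DirichletCharacter ℂ q, χ ≠ 1 → ∀ y : ℕ, (y : ℝ) ≤ x →
      ‖psiChi χ y‖ ≤ C * x / Real.log x ^ A := by
  obtain ⟨C, hC⟩ := BVM.SW A B
  obtain ⟨x₀, hx₀⟩ := good_all B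
  refine ⟨|C| + 2 * B * (2 ^ (A + 2) * (A + 2).factorial), max 3 x₀, by positivity, le_max_left _ _, ?_⟩
  intro x hx q hq1 hqB χ hχ y hy
  have hx3 : 3 ≤ x := (le_max_left _ _).trans hx
  have hG := hx₀ x ((le_max_right _ _).trans hx)
  have hq0 : q ≠ 0 := by omega
  have hNe : NeZero q := ⟨hq0⟩
  have hl1 : 1 ≤ Real.log x := by
    rw [Real.le_log_iff_exp_le (by linarith)]
    have := Real.exp_one_lt_d9
    linarith
  have hlA : 0 < Real.log x ^ A := by positivity
  have hcd : χ.conductor ∣ q := DirichletCharacter.conductor_dvd_level χ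
  have hc1 : 1 ≤ χ.conductor := Nat.pos_of_dvd_of_pos hcd (by omega)
  have hcq : (χ.conductor : ℝ) ≤ q := by exact_mod_cast Nat.le_of_dvd (by omega) hcd
  have hprim1 : χ.primitiveCharacter ≠ 1 := by
    intro h
    apply hχ
    have h2 := DirichletCharacter.changeLevel_primitiveCharacter χ
    rw [← h2, h, map_one]
  have h1 := hC x hx3 hG χ.conductor hc1 (hcq.trans hqB) χ.primitiveCharacter
    (DirichletCharacter.primitiveCharacter_isPrimitive χ) hprim1 y hy
  have h2 := psiChi_sub_primitive_le hq0 χ y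
  have hlq : Real.log q ≤ B * Real.log x := by
    have hqp : (0 : ℝ) < q := by positivity
    have h3 := Real.log_le_log hqp hqB
    rw [Real.log_pow] at h3
    have h4 : Real.log (Real.log x) ≤ Real.log x := by
      have := Real.log_le_sub_one_of_pos (show 0 < Real.log x by linarith)
      linarith
    exact h3.trans (mul_le_mul_of_nonneg_left h4 (Nat.cast_nonneg B))
  have hlq0 : 0 ≤ Real.log q := Real.log_natCast_nonneg q
  have hly : Real.log y ≤ Real.log x := by
    rcases Nat.eq_zero_or_pos y with h | h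
    · rw [h, Nat.cast_zero, Real.log_zero]
      linarith
    · exact Real.log_le_log (by exact_mod_cast h) hy
  have h3 : 2 * Real.log q * Real.log y ≤ 2 * B * Real.log x ^ 2 := by
    calc 2 * Real.log q * Real.log y ≤ 2 * Real.log q * Real.log x :=
          mul_le_mul_of_nonneg_left hly (by linarith)
      _ ≤ 2 * (B * Real.log x) * Real.log x :=
          mul_le_mul_of_nonneg_right (by linarith) (by linarith)
      _ = _ := by ring
  have h4 : Real.log x ^ (A + 2) ≤ 2 ^ (A + 2) * (A + 2).factorial * x := by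
    refine (log_pow_le (A + 2) (by linarith)).trans ?_
    apply mul_le_mul_of_nonneg_left _ (by positivity)
    rw [Real.sqrt_le_left (by linarith)]
    nlinarith
  have h5 : 2 * B * Real.log x ^ 2 ≤ 2 * B * (2 ^ (A + 2) * (A + 2).factorial) * x / Real.log x ^ A := by
    rw [le_div_iff₀ hlA]
    calc 2 * B * Real.log x ^ 2 * Real.log x ^ A = 2 * B * Real.log x ^ (A + 2) := by ring
      _ ≤ 2 * B * (2 ^ (A + 2) * (A + 2).factorial * x) := mul_le_mul_of_nonneg_left h4 (by positivity)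
      _ = _ := by ring
  have h6 : C * x / Real.log x ^ A ≤ |C| * x / Real.log x ^ A := by
    apply div_le_div_of_nonneg_right _ hlA.le
    exact mul_le_mul_of_nonneg_right (le_abs_self C) (by linarith)
  have h7 : ‖psiChi χ y‖ ≤ ‖psiChi χ y - psiChi χ.primitiveCharacter y‖ + ‖psiChi χ.primitiveCharacter y‖ := by
    have := norm_add_le (psiChi χ y - psiChi χ.primitiveCharacter y) (psiChi χ.primitiveCharacter y)
    rwa [sub_add_cancel] at this
  have h8 : (|C| + 2 * B * (2 ^ (A + 2) * (A + 2).factorial)) * x / Real.log x ^ A =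
      |C| * x / Real.log x ^ A + 2 * B * (2 ^ (A + 2) * (A + 2).factorial) * x / Real.log x ^ A := by
    rw [add_mul, add_div]
  rw [h8]
  linarith

/-- the Siegel-Walfisz theorem for `ψ(y;q,a)` -/
theorem psi_sw (A B : ℕ) : ∃ C x₀ : ℝ, 0 ≤ C ∧ 3 ≤ x₀ ∧ ∀ x : ℝ, x₀ ≤ x → ∀ q : ℕ, 1 ≤ q →
    (q : ℝ) ≤ Real.log x ^ B → ∀ a : ℕ, a.Coprime q → ∀ y : ℕ, (y : ℝ) ≤ x →
      |psiAP q a y - y / q.totient| ≤ C * x / Real.log x ^ A := by
  obtain ⟨C, x₀, hC0, hx₀3, hC⟩ := sw_all A B
  obtain ⟨C', hC'⟩ := BVM.pnt_err A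
  refine ⟨C + |C'| + 2 * B * (2 ^ (A + 2) * (A + 2).factorial), x₀, by positivity, hx₀3, ?_⟩
  intro x hx q hq1 hqB a ha y hy
  have hx3 : 3 ≤ x := hx₀3.trans hx
  have hq0 : q ≠ 0 := by omega
  have hl1 : 1 ≤ Real.log x := by
    rw [Real.le_log_iff_exp_le (by linarith)]
    have := Real.exp_one_lt_d9
    linarith
  have hlA : 0 < Real.log x ^ A := by positivity
  have hφ : (1 : ℝ) ≤ q.totient := by exact_mod_cast Nat.totient_pos.2 (by omega : 0 < q)
  have h1 := EE_le hq0 ha y (K := C * x / Real.log x ^ A) (by positivity)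
    (fun χ hχ => hC x hx q hq1 hqB χ hχ y hy)
  have h2 := abs_psiCop_sub_psi_le hq0 y
  have h3 := hC' x hx3 y hy
  have h4 : psiAP q a y - y / q.totient = EE q a y + (psiCop q y - y) / q.totient := by
    rw [EE_eq]
    ring
  have h5 : |(psiCop q y - y) / q.totient| ≤ |psiCop q y - y| := by
    rw [abs_div, abs_of_nonneg (by linarith : (0 : ℝ) ≤ q.totient)]
    exact div_le_self (abs_nonneg _) hφ
  have h6 : |psiCop q y - y| ≤ |psiCop q y - Chebyshev.psi y| + |Chebyshev.psi y - y| :=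
    abs_sub_le _ _ _
  have hlq : Real.log q ≤ B * Real.log x := by
    have hqp : (0 : ℝ) < q := by positivity
    have h3 := Real.log_le_log hqp hqB
    rw [Real.log_pow] at h3
    have h4 : Real.log (Real.log x) ≤ Real.log x := by
      have := Real.log_le_sub_one_of_pos (show 0 < Real.log x by linarith)
      linarith
    exact h3.trans (mul_le_mul_of_nonneg_left h4 (Nat.cast_nonneg B))
  have hlq0 : 0 ≤ Real.log q := Real.log_natCast_nonneg q
  have hly : Real.log y ≤ Real.log x := by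
    rcases Nat.eq_zero_or_pos y with h | h
    · rw [h, Nat.cast_zero, Real.log_zero]
      linarith
    · exact Real.log_le_log (by exact_mod_cast h) hy
  have h7 : 2 * Real.log q * Real.log y ≤ 2 * B * Real.log x ^ 2 := by
    calc 2 * Real.log q * Real.log y ≤ 2 * Real.log q * Real.log x :=
          mul_le_mul_of_nonneg_left hly (by linarith)
      _ ≤ 2 * (B * Real.log x) * Real.log x :=
          mul_le_mul_of_nonneg_right (by linarith) (by linarith)
      _ = _ := by ring
  have h8 : Real.log x ^ (A + 2) ≤ 2 ^ (A + 2) * (A + 2).factorial * x := by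
    refine (log_pow_le (A + 2) (by linarith)).trans ?_
    apply mul_le_mul_of_nonneg_left _ (by positivity)
    rw [Real.sqrt_le_left (by linarith)]
    nlinarith
  have h9 : 2 * B * Real.log x ^ 2 ≤ 2 * B * (2 ^ (A + 2) * (A + 2).factorial) * x / Real.log x ^ A := by
    rw [le_div_iff₀ hlA]
    calc 2 * B * Real.log x ^ 2 * Real.log x ^ A = 2 * B * Real.log x ^ (A + 2) := by ring
      _ ≤ 2 * B * (2 ^ (A + 2) * (A + 2).factorial * x) := mul_le_mul_of_nonneg_left h8 (by positivity)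
      _ = _ := by ring
  have h10 : C' * x / Real.log x ^ A ≤ |C'| * x / Real.log x ^ A := by
    apply div_le_div_of_nonneg_right _ hlA.le
    exact mul_le_mul_of_nonneg_right (le_abs_self C') (by linarith)
  have h11 : (C + |C'| + 2 * B * (2 ^ (A + 2) * (A + 2).factorial)) * x / Real.log x ^ A =
      C * x / Real.log x ^ A + |C'| * x / Real.log x ^ A +
        2 * B * (2 ^ (A + 2) * (A + 2).factorial) * x / Real.log x ^ A := by
    rw [add_mul, add_mul, add_div, add_div]
  have h12 := abs_add_le (EE q a y) ((psiCop q y - y) / q.totient)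
  rw [h4, h11]
  linarith

/-- **Siegel-Walfisz** for `θ(y;q,a)` -/
theorem theta_sw (A B : ℕ) : ∃ C x₀ : ℝ, 0 ≤ C ∧ 3 ≤ x₀ ∧ ∀ x : ℝ, x₀ ≤ x → ∀ q : ℕ, 1 ≤ q →
    (q : ℝ) ≤ Real.log x ^ B → ∀ a : ℕ, a.Coprime q → ∀ y : ℕ, (y : ℝ) ≤ x →
      |thetaAP q a y - y / q.totient| ≤ C * x / Real.log x ^ A := by
  obtain ⟨C, x₀, hC0, hx₀3, hC⟩ := psi_sw A B
  refine ⟨C + 2 * (2 ^ (A + 1) * (A + 1).factorial), x₀, by positivity, hx₀3, ?_⟩
  intro x hx q hq1 hqB a ha y hy
  have hx3 : 3 ≤ x := hx₀3.trans hx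
  have hl1 : 1 ≤ Real.log x := by
    rw [Real.le_log_iff_exp_le (by linarith)]
    have := Real.exp_one_lt_d9
    linarith
  have hlA : 0 < Real.log x ^ A := by positivity
  have h1 := hC x hx q hq1 hqB a ha y hy
  have h2 := psiAP_sub_thetaAP (q := q) (a := a) (le_refl y)
  have hly : Real.log y ≤ Real.log x := by
    rcases Nat.eq_zero_or_pos y with h | h
    · rw [h, Nat.cast_zero, Real.log_zero]
      linarith
    · exact Real.log_le_log (by exact_mod_cast h) hy
  have hsy : √(y : ℝ) ≤ √x := Real.sqrt_le_sqrt hy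
  have h3 : 2 * √(y : ℝ) * Real.log y ≤ 2 * √x * Real.log x := by
    apply mul_le_mul (by linarith) hly (Real.log_natCast_nonneg y) (by positivity)
  have h4 : 2 * √x * Real.log x ≤ 2 * (2 ^ (A + 1) * (A + 1).factorial) * x / Real.log x ^ A := by
    rw [le_div_iff₀ hlA]
    calc 2 * √x * Real.log x * Real.log x ^ A = 2 * √x * Real.log x ^ (A + 1) := by ring
      _ ≤ 2 * √x * (2 ^ (A + 1) * (A + 1).factorial * √x) :=
          mul_le_mul_of_nonneg_left (log_pow_le (A + 1) (by linarith)) (by positivity)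
      _ = 2 * (2 ^ (A + 1) * (A + 1).factorial) * (√x * √x) := by ring
      _ = _ := by rw [Real.mul_self_sqrt (by linarith)]
  have h5 : |thetaAP q a y - y / q.totient| ≤
      |psiAP q a y - y / q.totient| + (psiAP q a y - thetaAP q a y) := by
    have h6 : thetaAP q a y - y / q.totient =
        (psiAP q a y - y / q.totient) + -(psiAP q a y - thetaAP q a y) := by ring
    rw [h6]
    refine (abs_add_le _ _).trans ?_
    rw [abs_neg, abs_of_nonneg h2.1]
  have h7 : (C + 2 * (2 ^ (A + 1) * (A + 1).factorial)) * x / Real.log x ^ A =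
      C * x / Real.log x ^ A + 2 * (2 ^ (A + 1) * (A + 1).factorial) * x / Real.log x ^ A := by
    rw [add_mul, add_div]
  rw [h7]
  linarith [h2.2]

end Pool.Agent.helper62.Sieg
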