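import Pool.Agent.helper62.Sieg.S5
import Pool.Agent.helper24.BV.LTriv

/-!
# Siegel's theorem: every large scale is good
-/

set_option autoImplicit false

open Finset Complex Filter Topology
open DirichletCharacter (LFunction)

namespace Pool.Agent.helper62.Sieg

/-- Lipschitz bound up to the point `1` -/
theorem lip_one : ∃ C : ℝ, 1 ≤ C ∧ ∀ (q : ℕ) [NeZero q] (χ : DirichletCharacter ℂ q),
    χ ≠ 1 → ∀ σ : ℝ, 1 < σ → σ ≤ 2 →
      ‖LFunction χ (σ : ℂ) - LFunction χ 1‖ ≤ 2 * C * (1 + 2 * Real.log q) ^ 2 * (σ - 1) := by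
  obtain ⟨C, hC, hL⟩ := BVM.LUp
  refine ⟨C, hC, fun q _ χ hχ σ h1 h2 => ?_⟩
  have hq3 := BVM.three_le_of_ne_one hχ
  have hqR : (3 : ℝ) ≤ q := by exact_mod_cast hq3
  have hlq : 0 ≤ Real.log q := Real.log_nonneg (by linarith)
  set K : ℝ := 2 * C * (1 + 2 * Real.log q) ^ 2 with hK
  have hab : ∀ z : ℂ, 1 < z.re → LSeries.abscissaOfAbsConv (fun n => χ (n : ZMod q)) < z.re := by
    intro z hz
    have h : LSeries.abscissaOfAbsConv (fun n => χ (n : ZMod q)) = 1 :=
      DirichletCharacter.absicssaOfAbsConv_eq_one (NeZero.ne q) χ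
    rw [h]
    exact_mod_cast hz
  have hlip : ∀ τ : ℝ, 1 < τ → τ ≤ σ →
      ‖LSeries (fun n => χ (n : ZMod q)) (σ : ℂ) - LSeries (fun n => χ (n : ZMod q)) (τ : ℂ)‖ ≤ K * (σ - τ) := by
    intro τ hτ1 hτ2
    have h := (convex_Ioc (1 : ℝ) 2).norm_image_sub_le_of_norm_hasDerivWithin_le (C := K)
      (f := fun t : ℝ => LSeries (fun n => χ (n : ZMod q)) (t : ℂ))
      (f' := fun t : ℝ => -LSeries (LSeries.logMul (fun n => χ (n : ZMod q))) (t : ℂ))
      (x := τ) (y := σ) (fun x hx => ((LSeries_hasDerivAt (hab (x : ℂ) (by simpa using hx.1))).comp_ofReal).hasDerivWithinAt)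
      (fun x hx => ?_) ⟨hτ1, by linarith⟩ ⟨by linarith, h2⟩
    · rw [Real.norm_eq_abs, abs_of_nonneg (by linarith)] at h
      exact h
    · have h := hL q χ hχ 1 (x : ℂ) (by simpa using hx.1) (by simpa using hx.2)
      have e : LSeries (LSeries.logMul (fun n => χ (n : ZMod q))) (x : ℂ) =
          LSeries (fun n => χ (n : ZMod q) * ((Real.log n : ℝ) : ℂ) ^ 1) (x : ℂ) := by
        congr 1
        ext n
        simp only [LSeries.logMul, pow_one]
        rw [mul_comm, Complex.ofReal_log (Nat.cast_nonneg n), Complex.ofReal_natCast]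
      rw [norm_neg, e]
      refine h.trans ?_
      have h3 : BVM.ell q ((x : ℂ).im) ≤ 1 + 2 * Real.log q := by
        unfold BVM.ell
        rw [Complex.ofReal_im, abs_zero, zero_add, Real.log_mul (by linarith) (by norm_num)]
        have := Real.log_two_lt_d9
        linarith
      have h4 := BVM.one_le_ell hq3 ((x : ℂ).im)
      simp only [Nat.factorial_one, Nat.cast_one, mul_one, pow_one]
      have h5 := mul_le_mul h3 h3 (by linarith) (by linarith)
      rw [hK]
      nlinarith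
  have hlim : Tendsto (fun τ : ℝ => ‖LFunction χ (σ : ℂ) - LFunction χ (τ : ℂ)‖) (𝓝[>] 1)
      (𝓝 ‖LFunction χ (σ : ℂ) - LFunction χ ((1 : ℝ) : ℂ)‖) :=
    ((continuous_const.sub (LF_cont hχ)).norm.continuousAt).mono_left nhdsWithin_le_nhds
  rw [Complex.ofReal_one] at hlim
  refine le_of_tendsto hlim ?_
  filter_upwards [Ioc_mem_nhdsGT h1] with τ hτ
  rw [DirichletCharacter.LFunction_eq_LSeries χ (s := (σ : ℂ)) (by simpa using h1),
    DirichletCharacter.LFunction_eq_LSeries χ (s := (τ : ℂ)) (by simpa using hτ.1)]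
  refine (hlip τ hτ.1 hτ.2).trans ?_
  apply mul_le_mul_of_nonneg_left _ (by positivity)
  have := hτ.1
  linarith

/-- **Siegel**: all large scales are good -/
theorem good_all (B : ℕ) : ∃ x₀ : ℝ, ∀ x : ℝ, x₀ ≤ x → BVM.Good B x := by
  set ε : ℝ := 1 / (8 * (B + 1)) with hε
  have hε0 : 0 < ε := by positivity
  obtain ⟨c, hc, hS⟩ := siegel_one hε0
  obtain ⟨C, hC, hlip⟩ := lip_one
  set η : ℝ := ε / 2 with hη
  have hη0 : 0 < η := by positivity
  set E : ℝ := 1 + 2 / η with hE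
  have hE1 : 1 ≤ E := by
    have : 0 < 2 / η := by positivity
    linarith
  set R : ℝ := 8 * C * E ^ 2 / c with hR
  have hR0 : 0 < R := by positivity
  refine ⟨Real.exp (max 1 (R ^ 4)), fun x hx q hq1 hqB χ _ hχ hχ2 σ hσ1 hσ2 => ?_⟩
  have : NeZero q := ⟨by omega⟩
  have hx0 : 0 < x := lt_of_lt_of_le (Real.exp_pos _) hx
  set Λ : ℝ := Real.log x with hΛ
  have hΛm : max 1 (R ^ 4) ≤ Λ := by
    rw [hΛ, Real.le_log_iff_exp_le hx0]
    exact hx
  have hΛ1 : 1 ≤ Λ := (le_max_left _ _).trans hΛm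
  have hΛR : R ^ 4 ≤ Λ := (le_max_right _ _).trans hΛm
  have hΛ0 : 0 < Λ := by linarith
  set u : ℝ := Λ ^ (1 / 8 : ℝ) with hu
  have hu0 : 0 < u := by positivity
  have hu1 : 1 ≤ u := Real.one_le_rpow hΛ1 (by norm_num)
  have hu8 : u ^ 8 = Λ := by
    rw [hu, ← Real.rpow_natCast, ← Real.rpow_mul hΛ0.le]
    norm_num
  have hu2 : R ≤ u ^ 2 := by
    apply le_of_pow_le_pow_left₀ (n := 4) (by norm_num) (by positivity)
    rw [← pow_mul]
    norm_num
    rw [hu8]
    exact hΛR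
  have hsq : Real.sqrt Λ = u ^ 4 := by
    rw [← hu8]
    have : u ^ 8 = (u ^ 4) ^ 2 := by ring
    rw [this, Real.sqrt_sq (by positivity)]
  have hqR : (1 : ℝ) ≤ q := by exact_mod_cast hq1
  have hqu : (q : ℝ) ^ ε ≤ u := by
    calc (q : ℝ) ^ ε ≤ (Λ ^ B) ^ ε := Real.rpow_le_rpow (by linarith) hqB hε0.le
      _ = Λ ^ ((B : ℝ) * ε) := by rw [← Real.rpow_natCast, ← Real.rpow_mul hΛ0.le]
      _ ≤ Λ ^ (1 / 8 : ℝ) := by
          apply Real.rpow_le_rpow_of_exponent_le hΛ1
          rw [hε, mul_one_div, div_le_div_iff₀ (by positivity) (by norm_num)]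
          linarith
  have hlog : (1 + 2 * Real.log q) ^ 2 ≤ E ^ 2 * u := by
    have h1 : 1 + 2 * Real.log q ≤ E * (q : ℝ) ^ η := log_bd hη0 hq1
    have h2 : 0 ≤ Real.log q := Real.log_nonneg hqR
    calc (1 + 2 * Real.log q) ^ 2 ≤ (E * (q : ℝ) ^ η) ^ 2 := pow_le_pow_left₀ (by linarith) h1 2
      _ = E ^ 2 * (q : ℝ) ^ ε := by
          rw [mul_pow, ← Real.rpow_natCast ((q : ℝ) ^ η), ← Real.rpow_mul (by linarith)]
          congr 2
          rw [hη]
          push_cast
          ring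
      _ ≤ _ := mul_le_mul_of_nonneg_left hqu (by positivity)
  have hL1 : c / u ≤ ‖LFunction χ 1‖ := by
    refine le_trans ?_ (hS q χ hχ hχ2)
    rw [Real.rpow_neg (by linarith), ← div_eq_mul_inv]
    exact div_le_div_of_nonneg_left hc.le (by positivity) hqu
  have hLσ := hlip q χ hχ σ hσ1 hσ2
  rw [DirichletCharacter.LFunction_eq_LSeries χ (s := (σ : ℂ)) (by simpa using hσ1)] at hLσ
  have hcu : 8 * C * E ^ 2 ≤ c * u ^ 2 := by
    have h := mul_le_mul_of_nonneg_left hu2 hc.le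
    rw [hR, mul_div_cancel₀ _ hc.ne'] at h
    exact h
  rw [hsq]
  set κ : ℝ := c / (4 * C * E ^ 2 * u ^ 2) with hκ
  have hC0 : 0 < C := by linarith
  have hκ0 : 0 < κ := by positivity
  by_cases h : σ - 1 ≤ κ
  · have h1 : ‖LSeries (fun n => χ (n : ZMod q)) (σ : ℂ) - LFunction χ 1‖ ≤ c / (2 * u) := by
      refine hLσ.trans ?_
      calc 2 * C * (1 + 2 * Real.log q) ^ 2 * (σ - 1) ≤ 2 * C * (E ^ 2 * u) * κ := by
            apply mul_le_mul _ h (by linarith) (by positivity)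
            exact mul_le_mul_of_nonneg_left hlog (by positivity)
        _ = c / (2 * u) := by
            rw [hκ]
            field_simp
            ring
    have h2 := norm_sub_norm_le (LFunction χ 1) (LSeries (fun n => χ (n : ZMod q)) (σ : ℂ))
    rw [norm_sub_rev] at h2
    have h3 : c / u = c / (2 * u) + c / (2 * u) := by
      field_simp
      ring
    have h4 : 1 / u ^ 4 ≤ c / (2 * u) := by
      rw [div_le_div_iff₀ (by positivity) (by positivity)]
      have e1 : 1 ≤ E ^ 2 := one_le_pow₀ hE1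
      have e2 : 1 * 1 ≤ C * E ^ 2 := mul_le_mul hC e1 zero_le_one (by linarith)
      have h5 : 8 ≤ c * u ^ 2 := by linarith only [e2, hcu]
      have h6 : 8 * u ^ 2 ≤ c * u ^ 2 * u ^ 2 := mul_le_mul_of_nonneg_right h5 (by positivity)
      have h7 : u * 1 ≤ u * u := mul_le_mul_of_nonneg_left hu1 hu0.le
      have h8 : c * u ^ 2 * u ^ 2 = c * u ^ 4 := by ring
      have h9 : u * u = u ^ 2 := by ring
      linarith only [h6, h7, h8, h9, hu0]
    linarith
  · push Not at h
    have h1 := BVM.L_lower_triv χ (σ : ℂ) (by simpa using hσ1) (by simpa using hσ2)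
    rw [Complex.ofReal_re] at h1
    have h2 : 1 / u ^ 4 ≤ κ / 2 := by
      rw [hκ, div_div, div_le_div_iff₀ (by positivity) (by positivity)]
      have h3 : 8 * C * E ^ 2 * u ^ 2 ≤ c * u ^ 2 * u ^ 2 := mul_le_mul_of_nonneg_right hcu (by positivity)
      have h8 : c * u ^ 2 * u ^ 2 = c * u ^ 4 := by ring
      linarith only [h3, h8]
    linarith

end Pool.Agent.helper62.Sieg
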