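import Pool.Agent.helper24.BV.LUp

/-!
# Siegel's theorem, part 1: the `L`-function in the half plane `Re s > 0`

`L(s,χ) = s ∫_1^∞ S(t) t^(-s-1) dt` for `Re s > 0`, `χ ≠ 1`; so `‖L(s,χ)‖ ≤ ‖s‖ q / Re s`, and `L(σ,χ)` is real for
real characters `χ` and real `σ > 0`.
-/

set_option autoImplicit false

open Finset Complex MeasureTheory Filter Topology Set

namespace Pool.Agent.helper62.Sieg

variable {q : ℕ}

/-- the partial sums of `χ` as a function of a real variable -/
noncomputable def Sx (χ : DirichletCharacter ℂ q) (t : ℝ) : ℂ := ∑ k ∈ Finset.Icc 1 ⌊t⌋₊, χ (k : ZMod q)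

/-- the partial sums, cut off below `1` -/
noncomputable def Gx (χ : DirichletCharacter ℂ q) (t : ℝ) : ℂ := (Set.Ioi (1 : ℝ)).indicator (Sx χ) t

theorem Sx_meas (χ : DirichletCharacter ℂ q) : Measurable (Sx χ) := by
  have h : Sx χ = (fun n : ℕ => ∑ k ∈ Finset.Icc 1 n, χ (k : ZMod q)) ∘ (fun t : ℝ => ⌊t⌋₊) := rfl
  rw [h]
  exact (measurable_from_top).comp Nat.measurable_floor

theorem Gx_meas (χ : DirichletCharacter ℂ q) : Measurable (Gx χ) :=
  (Sx_meas χ).indicator measurableSet_Ioi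

theorem Sx_le [NeZero q] (χ : DirichletCharacter ℂ q) (hχ : χ ≠ 1) (t : ℝ) : ‖Sx χ t‖ ≤ q :=
  BVM.chi_sum_le χ hχ _

theorem Gx_le [NeZero q] (χ : DirichletCharacter ℂ q) (hχ : χ ≠ 1) (t : ℝ) : ‖Gx χ t‖ ≤ q := by
  unfold Gx
  by_cases h : t ∈ Set.Ioi (1 : ℝ)
  · rw [Set.indicator_of_mem h]
    exact Sx_le χ hχ t
  · rw [Set.indicator_of_notMem h, norm_zero]
    exact Nat.cast_nonneg q

theorem mellin_Gx (χ : DirichletCharacter ℂ q) (s : ℂ) :
    mellin (Gx χ) (-s) = ∫ t : ℝ in Set.Ioi 1, Sx χ t * (t : ℂ) ^ (-(s + 1)) := by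
  unfold mellin
  have h1 : ∀ t : ℝ, (t : ℂ) ^ (-s - 1) • Gx χ t =
      (Set.Ioi (1 : ℝ)).indicator (fun t : ℝ => Sx χ t * (t : ℂ) ^ (-(s + 1))) t := by
    intro t
    unfold Gx
    by_cases h : t ∈ Set.Ioi (1 : ℝ)
    · rw [Set.indicator_of_mem h, Set.indicator_of_mem h, smul_eq_mul, mul_comm]
      congr 2
      ring
    · rw [Set.indicator_of_notMem h, Set.indicator_of_notMem h, smul_zero]
  simp_rw [h1]
  rw [setIntegral_indicator measurableSet_Ioi]
  congr 2
  ext t
  simp only [Set.mem_inter_iff, Set.mem_Ioi]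
  constructor
  · exact fun h => h.2
  · exact fun h => ⟨by linarith, h⟩

theorem mellin_diff [NeZero q] (χ : DirichletCharacter ℂ q) (hχ : χ ≠ 1) {s : ℂ} (hs : s.re < 0) :
    DifferentiableAt ℂ (mellin (Gx χ)) s := by
  refine mellin_differentiableAt_of_isBigO_rpow (a := 0) (b := s.re - 1) ?_ ?_ hs ?_ (by linarith)
  · apply LocallyIntegrable.locallyIntegrableOn
    refine (locallyIntegrable_const (q : ℝ)).mono (Gx_meas χ).aestronglyMeasurable
      (Eventually.of_forall fun t => ?_)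
    rw [Real.norm_natCast]
    exact Gx_le χ hχ t
  · simp only [neg_zero, Real.rpow_zero]
    refine Asymptotics.IsBigO.of_bound q (Eventually.of_forall fun t => ?_)
    rw [norm_one, mul_one]
    exact Gx_le χ hχ t
  · have h0 : Gx χ =ᶠ[𝓝[>] 0] fun _ => (0 : ℂ) := by
      filter_upwards [Ioo_mem_nhdsGT (show (0 : ℝ) < 1 by norm_num)] with t ht
      unfold Gx
      rw [Set.indicator_of_notMem]
      simp only [Set.mem_Ioi, not_lt]
      exact ht.2.le
    exact h0.trans_isBigO (Asymptotics.isBigO_zero _ _)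

theorem LF_eq [NeZero q] (χ : DirichletCharacter ℂ q) (hχ : χ ≠ 1) {s : ℂ} (hs : 0 < s.re) :
    DirichletCharacter.LFunction χ s = s * ∫ t : ℝ in Set.Ioi 1, Sx χ t * (t : ℂ) ^ (-(s + 1)) := by
  have hopen : IsOpen {z : ℂ | 0 < z.re} := isOpen_lt continuous_const Complex.continuous_re
  have hf : AnalyticOnNhd ℂ (DirichletCharacter.LFunction χ) {z : ℂ | 0 < z.re} :=
    (DirichletCharacter.differentiable_LFunction hχ).differentiableOn.analyticOnNhd hopen
  have hg : AnalyticOnNhd ℂ (fun z => z * mellin (Gx χ) (-z)) {z : ℂ | 0 < z.re} := by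
    apply DifferentiableOn.analyticOnNhd _ hopen
    intro z hz
    apply DifferentiableAt.differentiableWithinAt
    apply DifferentiableAt.mul differentiableAt_id
    have h1 : DifferentiableAt ℂ (mellin (Gx χ)) (-z) := by
      apply mellin_diff χ hχ
      rw [Complex.neg_re]
      exact neg_neg_of_pos hz
    exact h1.comp z differentiableAt_id.neg
  have hpre : IsPreconnected {z : ℂ | 0 < z.re} := (convex_halfSpace_re_gt 0).isPreconnected
  have hev : DirichletCharacter.LFunction χ =ᶠ[𝓝 (2 : ℂ)] fun z => z * mellin (Gx χ) (-z) := by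
    have h2 : {z : ℂ | 1 < z.re} ∈ 𝓝 (2 : ℂ) := by
      apply (isOpen_lt continuous_const Complex.continuous_re).mem_nhds
      simp
    filter_upwards [h2] with z hz
    have hz' : 1 < z.re := hz
    rw [DirichletCharacter.LFunction_eq_LSeries χ hz', mellin_Gx]
    have h3 := LSeries_eq_mul_integral (fun n => χ (n : ZMod q)) (r := 0) le_rfl (s := z)
      (by linarith) (DirichletCharacter.LSeriesSummable_of_one_lt_re χ hz') (by
        refine Asymptotics.IsBigO.of_bound q (Eventually.of_forall fun n => ?_)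
        simp only [Real.rpow_zero, norm_one, mul_one]
        exact BVM.chi_sum_le χ hχ n)
    rw [h3]
    rfl
  have h := hf.eqOn_of_preconnected_of_eventuallyEq hg hpre (show (2 : ℂ) ∈ {z : ℂ | 0 < z.re} by simp)
    hev hs
  rw [h, ← mellin_Gx]

theorem LF_norm [NeZero q] (χ : DirichletCharacter ℂ q) (hχ : χ ≠ 1) {s : ℂ} (hs : 0 < s.re) :
    ‖DirichletCharacter.LFunction χ s‖ ≤ ‖s‖ * (q / s.re) := by
  rw [LF_eq χ hχ hs, norm_mul]
  apply mul_le_mul_of_nonneg_left _ (norm_nonneg _)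
  have h1 : IntegrableOn (fun t : ℝ => (q : ℝ) * t ^ (-(s.re + 1))) (Set.Ioi 1) :=
    (integrableOn_Ioi_rpow_of_lt (by linarith) one_pos).const_mul _
  have h2 : ‖∫ t : ℝ in Set.Ioi 1, Sx χ t * (t : ℂ) ^ (-(s + 1))‖ ≤
      ∫ t : ℝ in Set.Ioi 1, (q : ℝ) * t ^ (-(s.re + 1)) := by
    apply norm_integral_le_of_norm_le h1
    filter_upwards [ae_restrict_mem measurableSet_Ioi] with t ht
    rw [norm_mul, Complex.norm_cpow_eq_rpow_re_of_pos (lt_trans one_pos ht)]
    simp only [neg_re, add_re, one_re]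
    exact mul_le_mul_of_nonneg_right (Sx_le χ hχ t) (Real.rpow_nonneg (lt_trans one_pos ht).le _)
  refine h2.trans (le_of_eq ?_)
  rw [integral_const_mul, integral_Ioi_rpow_of_lt (by linarith) one_pos]
  rw [Real.one_rpow]
  have : s.re ≠ 0 := hs.ne'
  have h3 : -(s.re + 1) + 1 = -s.re := by ring
  rw [h3]
  field_simp

/-- values of a real character are real -/
theorem chi_real (χ : DirichletCharacter ℂ q) (hχ : χ ^ 2 = 1) (x : ZMod q) :
    χ x = ((χ x).re : ℂ) := by
  by_cases hx : IsUnit x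
  · have h1 : χ x * χ x = 1 := by
      have h2 : (χ ^ 2) x = (1 : DirichletCharacter ℂ q) x := by rw [hχ]
      rw [MulChar.pow_apply' _ (by norm_num), MulChar.one_apply hx, sq] at h2
      exact h2
    rcases mul_self_eq_one_iff.1 h1 with h | h <;> rw [h] <;> simp
  · rw [MulChar.map_nonunit χ hx]
    simp

theorem LF_real [NeZero q] (χ : DirichletCharacter ℂ q) (hχ : χ ≠ 1) (h2 : χ ^ 2 = 1) {σ : ℝ}
    (hσ : 0 < σ) : DirichletCharacter.LFunction χ (σ : ℂ) =
      ((DirichletCharacter.LFunction χ (σ : ℂ)).re : ℂ) := by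
  have h3 : ∃ r : ℝ, DirichletCharacter.LFunction χ (σ : ℂ) = (r : ℂ) := by
    rw [LF_eq χ hχ (by simpa using hσ)]
    refine ⟨σ * ∫ t : ℝ in Set.Ioi 1, (Sx χ t).re * t ^ (-(σ + 1)), ?_⟩
    rw [Complex.ofReal_mul, ← integral_complex_ofReal]
    congr 1
    apply setIntegral_congr_fun measurableSet_Ioi
    intro t ht
    have ht0 : 0 ≤ t := (lt_trans one_pos ht).le
    have h4 : Sx χ t = ((Sx χ t).re : ℂ) := by
      unfold Sx
      rw [Complex.re_sum, Complex.ofReal_sum]
      exact Finset.sum_congr rfl fun k _ => chi_real χ h2 _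
    simp only
    rw [Complex.ofReal_mul, ← h4, Complex.ofReal_cpow ht0]
    push_cast
    ring_nf
  obtain ⟨r, hr⟩ := h3
  rw [hr, Complex.ofReal_re]

end Pool.Agent.helper62.Sieg
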