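import Mathlib

/-!
# Siegel's theorem, part 2: Estermann's lemma

`a ≥ 0`, `a 1 ≥ 1`, `H` entire, `H s = (s - 1) ∑ a n / n^s` for `Re s > 1`, `‖H‖ ≤ K` on the circle `|s - 2| = 3/2`.
Then `Re (H σ / (σ - 1)) ≥ 1/2 - 3 |H 1| (32 K)^(4 (1 - σ)) / (1 - σ)` for `7/8 ≤ σ < 1`.
-/

set_option autoImplicit false

open Finset Complex Filter Topology
open scoped ComplexOrder

namespace Pool.Agent.helper62.Sieg

private theorem iter_shift (m : ℕ) : iteratedDeriv m (fun s : ℂ => (s - 1)⁻¹) 2 = (-1) ^ m * (m.factorial : ℂ) := by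
  have h1 : iteratedDeriv m (fun s : ℂ => (s - 1)⁻¹) 2 = iteratedDeriv m (fun s : ℂ => s⁻¹) (2 - 1) := by
    have h := congrFun (iteratedDeriv_comp_sub_const m (fun s : ℂ => s⁻¹) 1) 2
    exact h
  rw [h1, iteratedDeriv_eq_iterate]
  have h2 := iter_deriv_inv m (2 - 1 : ℂ)
  have h3 : (fun s : ℂ => s⁻¹) = Inv.inv := rfl
  rw [h3, h2]
  norm_num

private theorem re_LSeries_two {a : ℕ → ℂ} (ha : 0 ≤ a) (ha1 : 1 ≤ (a 1).re)
    (hc : LSeries.abscissaOfAbsConv a < ((2 : ℝ) : EReal)) : 1 ≤ (LSeries a 2).re := by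
  have hs : LSeriesSummable a 2 := by
    apply LSeriesSummable_of_abscissaOfAbsConv_lt_re
    simpa using hc
  unfold LSeries
  rw [Complex.re_tsum hs]
  have h0 : ∀ n, 0 ≤ (LSeries.term a 2 n).re := by
    intro n
    rw [LSeries.term_def]
    split_ifs with hn
    · simp
    · have h1 : (n : ℂ) ^ (2 : ℂ) = (((n : ℝ) ^ (2 : ℕ) : ℝ) : ℂ) := by
        push_cast
        exact_mod_cast Complex.cpow_natCast (n : ℂ) 2
      rw [h1, Complex.div_ofReal_re]
      have h2 : 0 ≤ a n := ha n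
      exact div_nonneg (Complex.le_def.1 h2).1 (by positivity)
  have h1 : (LSeries.term a 2 1).re = (a 1).re := by
    rw [LSeries.term_def, if_neg one_ne_zero]
    simp
  have hsr : Summable (fun n => (LSeries.term a 2 n).re) := (Complex.hasSum_re hs.hasSum).summable
  calc 1 ≤ (a 1).re := ha1
    _ = (LSeries.term a 2 1).re := h1.symm
    _ ≤ ∑' n, (LSeries.term a 2 n).re := hsr.le_tsum 1 (fun n _ => h0 n)

private theorem exp_quarter : Real.exp (1 / 4) ≤ 4 / 3 := by
  apply le_of_pow_le_pow_left₀ (n := 4) (by norm_num) (by norm_num)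
  rw [← Real.exp_nat_mul]
  have := Real.exp_one_lt_d9
  norm_num
  linarith

theorem estermann {a : ℕ → ℂ} (ha : 0 ≤ a) (ha1 : 1 ≤ (a 1).re)
    (hc : LSeries.abscissaOfAbsConv a < ((2 : ℝ) : EReal)) {H : ℂ → ℂ} (hH : Differentiable ℂ H)
    (hHA : ∀ s : ℂ, 1 < s.re → (s - 1) * LSeries a s = H s) {K : ℝ} (hK : 1 ≤ K) (hH1 : ‖H 1‖ ≤ K)
    (hcirc : ∀ z ∈ Metric.sphere (2 : ℂ) (3 / 2), ‖H z‖ ≤ K) {σ : ℝ} (h1 : 7 / 8 ≤ σ) (h2 : σ < 1) :
    1 / 2 - 3 * ‖H 1‖ * (32 * K) ^ (4 * (1 - σ)) / (1 - σ) ≤ (H σ / (σ - 1)).re := by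
  set G : ℂ → ℂ := dslope H 1 with hGdef
  have hG : Differentiable ℂ G := by
    rw [← differentiableOn_univ]
    exact (Complex.differentiableOn_dslope Filter.univ_mem).2 hH.differentiableOn
  have hGs : ∀ z : ℂ, z ≠ 1 → G z = (H z - H 1) / (z - 1) := by
    intro z hz
    rw [hGdef, dslope_of_ne _ hz, slope_def_field]
  -- the Taylor coefficients
  set g : ℕ → ℂ := fun m => ((m.factorial : ℂ))⁻¹ * ((-1) ^ m * iteratedDeriv m G 2) with hg
  have hrel : ∀ m, iteratedDeriv m (LSeries a) 2 =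
      iteratedDeriv m G 2 + H 1 * ((-1) ^ m * (m.factorial : ℂ)) := by
    intro m
    have hev : LSeries a =ᶠ[𝓝 (2 : ℂ)] fun z => G z + H 1 * (z - 1)⁻¹ := by
      have h3 : {z : ℂ | 1 < z.re} ∈ 𝓝 (2 : ℂ) := by
        apply (isOpen_lt continuous_const Complex.continuous_re).mem_nhds
        simp
      filter_upwards [h3] with z hz
      have hz' : 1 < z.re := hz
      have hz1 : z ≠ 1 := by
        rintro rfl
        simp at hz'
      have hz2 : z - 1 ≠ 0 := sub_ne_zero.2 hz1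
      rw [hGs z hz1, ← hHA z hz']
      field_simp
      ring
    rw [hev.iteratedDeriv_eq m, iteratedDeriv_fun_add hG.contDiff.contDiffAt, iteratedDeriv_const_mul_field,
      iter_shift]
    apply ContDiffAt.mul contDiffAt_const
    apply ContDiffAt.inv
    · exact contDiffAt_id.sub contDiffAt_const
    · norm_num
  have hgre : ∀ m, -(H 1).re ≤ (g m).re := by
    intro m
    have h3 := LSeries.iteratedDeriv_alternating ha hc m
    rw [Complex.ofReal_ofNat, hrel m, mul_add] at h3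
    have hm : ((m.factorial : ℝ)) ≠ 0 := by positivity
    have hmc : ((m.factorial : ℂ)) ≠ 0 := by exact_mod_cast hm
    have h4 : (-1 : ℂ) ^ m * (H 1 * ((-1) ^ m * (m.factorial : ℂ))) = (m.factorial : ℂ) * H 1 := by
      have h5 : ((-1 : ℂ) ^ m) * ((-1) ^ m) = 1 := by
        rw [← pow_add, Even.neg_one_pow ⟨m, rfl⟩]
      calc _ = (((-1 : ℂ) ^ m) * ((-1) ^ m)) * ((m.factorial : ℂ) * H 1) := by ring
        _ = _ := by rw [h5, one_mul]
    rw [h4] at h3
    have h6 : (-1 : ℂ) ^ m * iteratedDeriv m G 2 = (m.factorial : ℂ) * g m := by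
      simp only [hg]
      rw [← mul_assoc, mul_inv_cancel₀ hmc, one_mul]
    rw [h6, ← mul_add] at h3
    have h7 := (Complex.le_def.1 h3).1
    rw [Complex.zero_re] at h7
    have h8 : ((m.factorial : ℂ) * (g m + H 1)).re = (m.factorial : ℝ) * (g m + H 1).re := by
      have : (m.factorial : ℂ) = ((m.factorial : ℝ) : ℂ) := by push_cast; rfl
      rw [this, Complex.re_ofReal_mul]
    rw [h8] at h7
    have h9 : 0 ≤ (g m + H 1).re := by
      by_contra hcon
      push Not at hcon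
      have : (m.factorial : ℝ) * (g m + H 1).re < 0 := mul_neg_of_pos_of_neg (by positivity) hcon
      linarith
    rw [Complex.add_re] at h9
    linarith
  have hg0 : 1 - (H 1).re ≤ (g 0).re := by
    have h3 := re_LSeries_two ha ha1 hc
    have h4 : LSeries a 2 = g 0 + H 1 := by
      have h5 := hrel 0
      simp only [iteratedDeriv_zero, pow_zero, Nat.factorial_zero, Nat.cast_one, mul_one] at h5
      rw [h5]
      simp [hg]
    rw [h4, Complex.add_re] at h3
    linarith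
  -- the circle
  have hcircG : ∀ z ∈ Metric.sphere (2 : ℂ) (3 / 2), ‖G z‖ ≤ 4 * K := by
    intro z hz
    have hz3 : ‖z - 2‖ = 3 / 2 := by
      rw [← dist_eq_norm]
      exact hz
    have hz1 : 1 / 2 ≤ ‖z - 1‖ := by
      have h5 : ‖z - 2‖ ≤ ‖z - 1‖ + ‖(1 : ℂ)‖ := by
        have h6 : z - 2 = (z - 1) - 1 := by ring
        rw [h6]
        exact norm_sub_le _ _
      rw [norm_one] at h5
      linarith
    have hz2 : z ≠ 1 := by
      rintro rfl
      norm_num at hz1
    rw [hGs z hz2, norm_div]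
    have h7 : ‖H z - H 1‖ ≤ K + K := (norm_sub_le _ _).trans (add_le_add (hcirc z hz) hH1)
    rw [div_le_iff₀ (by linarith)]
    nlinarith
  have hgn : ∀ m, ‖g m‖ ≤ 4 * K * (2 / 3) ^ m := by
    intro m
    have h3 := Complex.norm_iteratedDeriv_le_of_forall_mem_sphere_norm_le m (c := (2 : ℂ)) (R := 3 / 2)
      (by norm_num) hG.diffContOnCl hcircG
    simp only [hg]
    rw [norm_mul, norm_mul, norm_pow, norm_neg, norm_one, one_pow, one_mul, norm_inv, Complex.norm_natCast]
    have hm : (0 : ℝ) < (m.factorial : ℝ) := by positivity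
    rw [inv_mul_le_iff₀ hm]
    refine h3.trans (le_of_eq ?_)
    have : (3 / 2 : ℝ) ^ m * (2 / 3) ^ m = 1 := by
      rw [← mul_pow]
      norm_num
    rw [div_eq_iff (by positivity)]
    calc _ = (m.factorial : ℝ) * (4 * K) * 1 := by ring
      _ = (m.factorial : ℝ) * (4 * K) * ((3 / 2 : ℝ) ^ m * (2 / 3) ^ m) := by rw [this]
      _ = _ := by ring
  -- Taylor series at σ
  set x : ℝ := 2 - σ with hx
  have hx1 : 1 < x := by rw [hx]; linarith
  have hx2 : x ≤ 9 / 8 := by rw [hx]; linarith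
  have htay : HasSum (fun m => g m * (x : ℂ) ^ m) (G σ) := by
    have h3 := Complex.hasSum_taylorSeries_of_entire hG 2 (σ : ℂ)
    have h4 : (fun m => g m * (x : ℂ) ^ m) =
        fun n : ℕ => ((n.factorial : ℂ))⁻¹ • ((σ : ℂ) - 2) ^ n • iteratedDeriv n G 2 := by
      funext n
      simp only [hg, smul_eq_mul]
      have h5 : (x : ℂ) = (-1) * ((σ : ℂ) - 2) := by
        rw [hx]
        push_cast
        ring
      rw [h5, mul_pow]
      have h6 : ((-1 : ℂ) ^ n) * ((-1) ^ n) = 1 := by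
        rw [← pow_add, Even.neg_one_pow ⟨n, rfl⟩]
      calc _ = (((-1 : ℂ) ^ n) * ((-1) ^ n)) * ((n.factorial : ℂ)⁻¹ * ((((σ : ℂ) - 2) ^ n) *
              iteratedDeriv n G 2)) := by ring
        _ = _ := by rw [h6, one_mul]
    rw [h4]
    exact h3
  have hre : HasSum (fun m => (g m).re * x ^ m) (G σ).re := by
    have h3 := Complex.hasSum_re htay
    have h4 : (fun m => (g m).re * x ^ m) = fun m => (g m * (x : ℂ) ^ m).re := by
      funext m
      rw [← Complex.ofReal_pow, Complex.re_mul_ofReal]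
    rw [h4]
    exact h3
  -- the cut
  have hL : 0 < Real.log (32 * K) := Real.log_pos (by linarith)
  set M : ℕ := ⌈4 * Real.log (32 * K)⌉₊ with hM
  have hM0 : 0 < M := Nat.ceil_pos.2 (by linarith)
  have hMl : 4 * Real.log (32 * K) ≤ M := Nat.le_ceil _
  have hMu : (M : ℝ) < 4 * Real.log (32 * K) + 1 := Nat.ceil_lt_add_one (by linarith)
  have hhead : 1 - (H 1).re * ((x ^ M - 1) / (x - 1)) ≤ ∑ m ∈ Finset.range M, (g m).re * x ^ m := by
    have h3 : ∑ m ∈ Finset.range M, (g m).re * x ^ m + (H 1).re * ((x ^ M - 1) / (x - 1)) =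
        ∑ m ∈ Finset.range M, ((g m).re + (H 1).re) * x ^ m := by
      rw [← geom_sum_eq (by linarith), Finset.mul_sum, ← Finset.sum_add_distrib]
      exact Finset.sum_congr rfl fun m _ => by ring
    have h4 : 1 ≤ ∑ m ∈ Finset.range M, ((g m).re + (H 1).re) * x ^ m := by
      calc (1 : ℝ) ≤ ((g 0).re + (H 1).re) * x ^ 0 := by
            rw [pow_zero, mul_one]
            linarith
        _ ≤ _ := by
            refine Finset.single_le_sum (f := fun m => ((g m).re + (H 1).re) * x ^ m) (fun m _ => ?_)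
              (Finset.mem_range.2 hM0)
            exact mul_nonneg (by have := hgre m; linarith) (pow_nonneg (by linarith) m)
    linarith
  have htail : -(16 * K * (3 / 4) ^ M) ≤ ∑' m, (g (m + M)).re * x ^ (m + M) := by
    have h3 : ∀ m, ‖(g (m + M)).re * x ^ (m + M)‖ ≤ 4 * K * (3 / 4) ^ M * (3 / 4) ^ m := by
      intro m
      rw [norm_mul, Real.norm_eq_abs, Real.norm_eq_abs, abs_of_nonneg (pow_nonneg (by linarith : (0 : ℝ) ≤ x) _)]
      calc |(g (m + M)).re| * x ^ (m + M) ≤ 4 * K * (2 / 3) ^ (m + M) * (9 / 8) ^ (m + M) := by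
            apply mul_le_mul ((Complex.abs_re_le_norm _).trans (hgn _)) _ (by positivity) (by positivity)
            exact pow_le_pow_left₀ (by linarith) hx2 _
        _ = 4 * K * ((2 / 3) * (9 / 8)) ^ (m + M) := by rw [mul_pow]; ring
        _ = _ := by rw [pow_add]; norm_num; ring
    have h4 : HasSum (fun m : ℕ => 4 * K * (3 / 4 : ℝ) ^ M * (3 / 4) ^ m) (4 * K * (3 / 4) ^ M * (1 - 3 / 4)⁻¹) :=
      (hasSum_geometric_of_lt_one (by norm_num) (by norm_num)).mul_left _
    have h5 := tsum_of_norm_bounded h4 h3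
    rw [Real.norm_eq_abs] at h5
    have h6 := (abs_le.1 h5).1
    refine le_trans (le_of_eq ?_) h6
    norm_num
    ring
  have hGσ : 1 - (H 1).re * ((x ^ M - 1) / (x - 1)) - 16 * K * (3 / 4) ^ M ≤ (G σ).re := by
    rw [← hre.tsum_eq, ← hre.summable.sum_add_tsum_nat_add M]
    linarith
  have h34 : 16 * K * (3 / 4 : ℝ) ^ M ≤ 1 / 2 := by
    have h3 : 32 * K ≤ (4 / 3 : ℝ) ^ M := by
      calc 32 * K = Real.exp (Real.log (32 * K)) := (Real.exp_log (by linarith)).symm
        _ ≤ Real.exp (M * (1 / 4)) := Real.exp_le_exp.2 (by linarith)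
        _ = Real.exp (1 / 4) ^ M := by rw [← Real.exp_nat_mul]
        _ ≤ _ := pow_le_pow_left₀ (Real.exp_pos _).le exp_quarter M
    have h4 : (3 / 4 : ℝ) ^ M * (4 / 3) ^ M = 1 := by
      rw [← mul_pow]
      norm_num
    have h5 : 0 < (3 / 4 : ℝ) ^ M := by positivity
    nlinarith
  have hxM : x ^ M ≤ 3 * (32 * K) ^ (4 * (1 - σ)) := by
    have h3 : x ≤ Real.exp (1 - σ) := by
      have := Real.add_one_le_exp (1 - σ)
      rw [hx]
      linarith
    calc x ^ M ≤ Real.exp (1 - σ) ^ M := pow_le_pow_left₀ (by linarith) h3 M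
      _ = Real.exp (M * (1 - σ)) := by rw [← Real.exp_nat_mul]
      _ ≤ Real.exp (1 + Real.log (32 * K) * (4 * (1 - σ))) := by
          apply Real.exp_le_exp.2
          nlinarith
      _ = Real.exp 1 * (32 * K) ^ (4 * (1 - σ)) := by
          rw [Real.exp_add, Real.rpow_def_of_pos (by linarith)]
      _ ≤ _ := by
          apply mul_le_mul_of_nonneg_right _ (Real.rpow_nonneg (by linarith) _)
          have := Real.exp_one_lt_d9
          linarith
  have hσ1 : (σ : ℂ) ≠ 1 := by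
    intro h
    have : σ = 1 := by exact_mod_cast h
    linarith
  have hHσ : (H σ / (σ - 1)).re = (G σ).re - (H 1).re / (1 - σ) := by
    have h3 : H σ / ((σ : ℂ) - 1) = G σ + H 1 * (((σ - 1 : ℝ))⁻¹ : ℝ) := by
      rw [hGs _ hσ1]
      push_cast
      field_simp
      ring
    rw [h3, Complex.add_re, Complex.re_mul_ofReal]
    have h4 : (1 - σ) ≠ 0 := by linarith
    have h5 : (σ - 1) ≠ 0 := by linarith
    have h6 : (σ - 1)⁻¹ = -(1 - σ)⁻¹ := by
      rw [← neg_sub, inv_neg]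
    rw [h6]
    ring
  rw [hHσ]
  have h1σ : 0 < 1 - σ := by linarith
  have hxσ : x - 1 = 1 - σ := by rw [hx]; ring
  rw [hxσ] at hGσ
  have h7 : (H 1).re * ((x ^ M - 1) / (1 - σ)) + (H 1).re / (1 - σ) = (H 1).re * x ^ M / (1 - σ) := by
    field_simp
    ring
  have h8 : (H 1).re * x ^ M / (1 - σ) ≤ 3 * ‖H 1‖ * (32 * K) ^ (4 * (1 - σ)) / (1 - σ) := by
    apply div_le_div_of_nonneg_right _ h1σ.le
    calc (H 1).re * x ^ M ≤ ‖H 1‖ * x ^ M :=
          mul_le_mul_of_nonneg_right (Complex.re_le_norm _) (pow_nonneg (by linarith) _)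
      _ ≤ ‖H 1‖ * (3 * (32 * K) ^ (4 * (1 - σ))) := mul_le_mul_of_nonneg_left hxM (norm_nonneg _)
      _ = _ := by ring
  linarith

end Pool.Agent.helper62.Sieg
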