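import Pool.Agent.helper62.Sieg.S1
import Pool.Agent.helper62.Sieg.S2

/-!
# Siegel's theorem, part 3: the products of `L`-functions with nonnegative coefficients
-/

set_option autoImplicit false

open Finset Complex Filter Topology
open ArithmeticFunction hiding log
open scoped ComplexOrder

namespace Pool.Agent.helper62.Sieg

/-- `(s-1) ζ(s)`, continued -/
noncomputable def Pz : ℂ → ℂ := Function.update (fun s => (s - 1) * riemannZeta s) 1 1

private theorem Pz_diff_ne {s : ℂ} (hs : s ≠ 1) : DifferentiableAt ℂ Pz s := by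
  have h : DifferentiableAt ℂ (fun s : ℂ => (s - 1) * riemannZeta s) s :=
    (differentiableAt_id.sub_const 1).mul (differentiableAt_riemannZeta hs)
  apply h.congr_of_eventuallyEq
  filter_upwards [eventually_ne_nhds hs] with t ht using Function.update_of_ne ht ..

theorem Pz_diff : Differentiable ℂ Pz := by
  intro s
  rcases ne_or_eq s 1 with hs | rfl
  · exact Pz_diff_ne hs
  refine (analyticAt_of_differentiable_on_punctured_nhds_of_continuousAt ?_ ?_).differentiableAt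
  · filter_upwards [self_mem_nhdsWithin] with t ht
    exact Pz_diff_ne ht
  · unfold Pz
    simpa only [continuousAt_update_same] using riemannZeta_residue_one

theorem Pz_one : Pz 1 = 1 := by
  unfold Pz
  rw [Function.update_self]

theorem Pz_bound : ∃ C : ℝ, 1 ≤ C ∧ ∀ z ∈ Metric.sphere (2 : ℂ) (3 / 2), ‖Pz z‖ ≤ C := by
  obtain ⟨C, hC⟩ := (isCompact_sphere (2 : ℂ) (3 / 2)).exists_bound_of_continuousOn
    Pz_diff.continuous.continuousOn
  exact ⟨max 1 C, le_max_left _ _, fun z hz => (hC z hz).trans (le_max_right _ _)⟩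

variable {N : ℕ}

/-- the character as an arithmetic function -/
noncomputable def X (χ : DirichletCharacter ℂ N) : ArithmeticFunction ℂ :=
  toArithmeticFunction (fun n => χ (n : ZMod N))

theorem X_apply (χ : DirichletCharacter ℂ N) {n : ℕ} (hn : n ≠ 0) : X χ n = χ (n : ZMod N) := by
  simp [X, toArithmeticFunction, hn]

theorem zetaMul_eq (χ : DirichletCharacter ℂ N) :
    χ.zetaMul = (ArithmeticFunction.zeta : ArithmeticFunction ℂ) * X χ := rfl

theorem zetaMul_apply (χ : DirichletCharacter ℂ N) (n : ℕ) :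
    χ.zetaMul n = ∑ x ∈ n.divisorsAntidiagonal, χ (x.2 : ZMod N) := by
  rw [zetaMul_eq, ArithmeticFunction.mul_apply]
  apply Finset.sum_congr rfl
  intro x hx
  have h := Nat.mem_divisorsAntidiagonal.1 hx
  have h1 : x.1 ≠ 0 := fun h0 => h.2 (by rw [← h.1, h0, zero_mul])
  have h2 : x.2 ≠ 0 := fun h0 => h.2 (by rw [← h.1, h0, mul_zero])
  rw [ArithmeticFunction.natCoe_apply, ArithmeticFunction.zeta_apply, if_neg h1, X_apply χ h2]
  simp

theorem twist (ψ₁ ψ₂ : DirichletCharacter ℂ N) (n : ℕ) :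
    (X ψ₂ * X (ψ₁ * ψ₂)) n = ψ₂ (n : ZMod N) * ψ₁.zetaMul n := by
  rw [zetaMul_apply, ArithmeticFunction.mul_apply, Finset.mul_sum]
  apply Finset.sum_congr rfl
  intro x hx
  have h := Nat.mem_divisorsAntidiagonal.1 hx
  have h1 : x.1 ≠ 0 := fun h0 => h.2 (by rw [← h.1, h0, zero_mul])
  have h2 : x.2 ≠ 0 := fun h0 => h.2 (by rw [← h.1, h0, mul_zero])
  rw [X_apply _ h1, X_apply _ h2, ← h.1, MulChar.mul_apply]
  push_cast
  rw [map_mul]
  ring

/-- the coefficients of `ζ(s) L(s,ψ₁) L(s,ψ₂) L(s,ψ₁ψ₂)` -/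
noncomputable def quad (ψ₁ ψ₂ : DirichletCharacter ℂ N) : ArithmeticFunction ℂ :=
  ψ₁.zetaMul * (X ψ₂ * X (ψ₁ * ψ₂))

theorem quad_comm (ψ₁ ψ₂ : DirichletCharacter ℂ N) : quad ψ₁ ψ₂ = quad ψ₂ ψ₁ := by
  unfold quad
  rw [zetaMul_eq, zetaMul_eq, mul_comm ψ₂ ψ₁]
  ring

theorem X_mult (χ : DirichletCharacter ℂ N) : (X χ).IsMultiplicative :=
  DirichletCharacter.isMultiplicative_toArithmeticFunction χ

theorem quad_mult (ψ₁ ψ₂ : DirichletCharacter ℂ N) : (quad ψ₁ ψ₂).IsMultiplicative :=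
  (DirichletCharacter.isMultiplicative_zetaMul ψ₁).mul ((X_mult ψ₂).mul (X_mult _))

theorem quad_apply (ψ₁ ψ₂ : DirichletCharacter ℂ N) (n : ℕ) :
    quad ψ₁ ψ₂ n = ∑ x ∈ n.divisorsAntidiagonal, ψ₁.zetaMul x.1 * (ψ₂ (x.2 : ZMod N) * ψ₁.zetaMul x.2) := by
  unfold quad
  rw [ArithmeticFunction.mul_apply]
  exact Finset.sum_congr rfl fun x _ => by rw [twist]

theorem zetaMul_odd {χ : DirichletCharacter ℂ N} {p : ℕ} (hp : p.Prime) (h : χ (p : ZMod N) = -1) {k : ℕ}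
    (hk : ¬ Even k) : χ.zetaMul (p ^ k) = 0 := by
  have h1 : χ.zetaMul (p ^ k) = ∑ i ∈ Finset.range (k + 1), (-1 : ℂ) ^ i := by
    rw [zetaMul_apply, Nat.sum_divisorsAntidiagonal' (f := fun _ b => χ (b : ZMod N)),
      Nat.sum_divisors_prime_pow hp]
    apply Finset.sum_congr rfl
    intro i _
    push_cast
    rw [map_pow, h]
  rw [h1, neg_one_geom_sum, if_pos]
  exact Nat.even_add_one.2 hk

theorem quad_prime_nonneg_aux {ψ₁ ψ₂ : DirichletCharacter ℂ N} (h1 : ψ₁ ^ 2 = 1) {p : ℕ} (hp : p.Prime)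
    (h : 0 ≤ ψ₂ (p : ZMod N)) (k : ℕ) : 0 ≤ quad ψ₁ ψ₂ (p ^ k) := by
  rw [quad_apply]
  apply Finset.sum_nonneg
  intro x hx
  have hx' := Nat.mem_divisorsAntidiagonal.1 hx
  obtain ⟨j, _, hj⟩ := (Nat.dvd_prime_pow hp).1 (Dvd.intro_left _ hx'.1)
  apply mul_nonneg (DirichletCharacter.zetaMul_nonneg h1 _)
  apply mul_nonneg _ (DirichletCharacter.zetaMul_nonneg h1 _)
  rw [hj]
  push_cast
  rw [map_pow]
  exact pow_nonneg h j

theorem quad_prime_nonneg {ψ₁ ψ₂ : DirichletCharacter ℂ N} (h1 : ψ₁ ^ 2 = 1) (h2 : ψ₂ ^ 2 = 1) {p : ℕ}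
    (hp : p.Prime) (k : ℕ) : 0 ≤ quad ψ₁ ψ₂ (p ^ k) := by
  rcases MulChar.isQuadratic_iff_sq_eq_one.mpr h2 p with h | h | h
  · exact quad_prime_nonneg_aux h1 hp (by rw [h]) k
  · exact quad_prime_nonneg_aux h1 hp (by rw [h]; exact zero_le_one) k
  rcases MulChar.isQuadratic_iff_sq_eq_one.mpr h1 p with h' | h' | h'
  · rw [quad_comm]
    exact quad_prime_nonneg_aux h2 hp (by rw [h']) k
  · rw [quad_comm]
    exact quad_prime_nonneg_aux h2 hp (by rw [h']; exact zero_le_one) k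
  rw [quad_apply]
  apply Finset.sum_nonneg
  intro x hx
  have hx' := Nat.mem_divisorsAntidiagonal.1 hx
  obtain ⟨j, _, hj⟩ := (Nat.dvd_prime_pow hp).1 (Dvd.intro_left _ hx'.1)
  apply mul_nonneg (DirichletCharacter.zetaMul_nonneg h1 _)
  rw [hj]
  by_cases he : Even j
  · apply mul_nonneg _ (DirichletCharacter.zetaMul_nonneg h1 _)
    push_cast
    rw [map_pow, h, he.neg_one_pow]
    exact zero_le_one
  · rw [zetaMul_odd hp h' he, mul_zero]

theorem quad_nonneg {ψ₁ ψ₂ : DirichletCharacter ℂ N} (h1 : ψ₁ ^ 2 = 1) (h2 : ψ₂ ^ 2 = 1) (n : ℕ) :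
    0 ≤ quad ψ₁ ψ₂ n := by
  rcases eq_or_ne n 0 with rfl | hn
  · simp only [ArithmeticFunction.map_zero, le_refl]
  · rw [(quad_mult ψ₁ ψ₂).multiplicative_factorization _ hn]
    exact Finset.prod_nonneg
        fun p hp ↦ quad_prime_nonneg h1 h2 (Nat.prime_of_mem_primeFactors hp) _

theorem summ_X (χ : DirichletCharacter ℂ N) {s : ℂ} (hs : 1 < s.re) : LSeriesSummable (X χ) s := by
  refine LSeriesSummable_of_bounded_of_one_lt_re (m := 1) (fun n hn ↦ ?_) hs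
  rw [X_apply χ hn]
  exact DirichletCharacter.norm_le_one χ _

theorem LS_X [NeZero N] (χ : DirichletCharacter ℂ N) {s : ℂ} (hs : 1 < s.re) :
    LSeries (X χ) s = DirichletCharacter.LFunction χ s := by
  rw [DirichletCharacter.LFunction_eq_LSeries χ hs]
  exact LSeries_congr (fun {n} hn => X_apply χ hn) s

theorem LS_zetaMul [NeZero N] (χ : DirichletCharacter ℂ N) {s : ℂ} (hs : 1 < s.re) :
    LSeries χ.zetaMul s = riemannZeta s * DirichletCharacter.LFunction χ s := by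
  have h0 : (fun n => (ArithmeticFunction.zeta : ArithmeticFunction ℂ) n) =
      fun n => ((ArithmeticFunction.zeta n : ℕ) : ℂ) := by
    funext n
    rw [ArithmeticFunction.natCoe_apply]
  have hz : LSeriesSummable (fun n => (ArithmeticFunction.zeta : ArithmeticFunction ℂ) n) s := by
    rw [h0]
    exact LSeriesSummable_zeta_iff.mpr hs
  rw [zetaMul_eq, ArithmeticFunction.LSeries_mul' hz (summ_X χ hs), LS_X χ hs, h0]
  congr 1
  exact LSeries_zeta_eq_riemannZeta hs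

theorem summ_quad (ψ₁ ψ₂ : DirichletCharacter ℂ N) {s : ℂ} (hs : 1 < s.re) :
    LSeriesSummable (quad ψ₁ ψ₂) s :=
  ArithmeticFunction.LSeriesSummable_mul (DirichletCharacter.LSeriesSummable_zetaMul ψ₁ hs)
    (ArithmeticFunction.LSeriesSummable_mul (summ_X ψ₂ hs) (summ_X _ hs))

theorem LS_quad [NeZero N] (ψ₁ ψ₂ : DirichletCharacter ℂ N) {s : ℂ} (hs : 1 < s.re) :
    LSeries (quad ψ₁ ψ₂) s = riemannZeta s * DirichletCharacter.LFunction ψ₁ s *
      (DirichletCharacter.LFunction ψ₂ s * DirichletCharacter.LFunction (ψ₁ * ψ₂) s) := by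
  unfold quad
  rw [ArithmeticFunction.LSeries_mul' (DirichletCharacter.LSeriesSummable_zetaMul ψ₁ hs)
      (ArithmeticFunction.LSeriesSummable_mul (summ_X ψ₂ hs) (summ_X _ hs)),
    ArithmeticFunction.LSeries_mul' (summ_X ψ₂ hs) (summ_X _ hs), LS_zetaMul ψ₁ hs, LS_X _ hs, LS_X _ hs]

theorem abscissa_lt {f : ℕ → ℂ} (hf : LSeriesSummable f ((3 / 2 : ℝ) : ℂ)) :
    LSeries.abscissaOfAbsConv f < ((2 : ℝ) : EReal) := by
  have h := hf.abscissaOfAbsConv_le
  rw [Complex.ofReal_re] at h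
  refine lt_of_le_of_lt h ?_
  exact_mod_cast (by norm_num : (3 / 2 : ℝ) < 2)

theorem LF_circ [NeZero N] (χ : DirichletCharacter ℂ N) (hχ : χ ≠ 1) {z : ℂ}
    (hz : z ∈ Metric.sphere (2 : ℂ) (3 / 2)) : ‖DirichletCharacter.LFunction χ z‖ ≤ 7 * N := by
  have hz3 : ‖z - 2‖ = 3 / 2 := by
    rw [← dist_eq_norm]
    exact hz
  have h1 : 1 / 2 ≤ z.re := by
    have h2 := (abs_le.1 (Complex.abs_re_le_norm (z - 2))).1
    rw [hz3, Complex.sub_re] at h2
    norm_num at h2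
    linarith
  have h2 : ‖z‖ ≤ 7 / 2 := by
    have h3 : z = (z - 2) + 2 := by ring
    rw [h3]
    refine (norm_add_le _ _).trans ?_
    rw [hz3]
    norm_num
  have hN : (0 : ℝ) ≤ N := Nat.cast_nonneg N
  calc ‖DirichletCharacter.LFunction χ z‖ ≤ ‖z‖ * (N / z.re) := LF_norm χ hχ (by linarith)
    _ ≤ 7 / 2 * (N / (1 / 2)) := by
        apply mul_le_mul h2 _ (by positivity) (by norm_num)
        exact div_le_div_of_nonneg_left hN (by norm_num) h1
    _ = 7 * N := by ring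

theorem LF_one [NeZero N] (χ : DirichletCharacter ℂ N) (hχ : χ ≠ 1) :
    ‖DirichletCharacter.LFunction χ 1‖ ≤ 7 * N := by
  have h := LF_norm χ hχ (s := 1) (by simp)
  simp only [norm_one, one_re, div_one, one_mul] at h
  have hN : (0 : ℝ) ≤ N := Nat.cast_nonneg N
  linarith

theorem single_lower : ∃ C : ℝ, 1 ≤ C ∧ ∀ (N : ℕ) [NeZero N] (ψ : DirichletCharacter ℂ N), ψ ≠ 1 → ψ ^ 2 = 1 →
    ∀ σ : ℝ, 7 / 8 ≤ σ → σ < 1 →
      1 / 2 - 3 * ‖DirichletCharacter.LFunction ψ 1‖ * (C * N ^ 3) ^ (4 * (1 - σ)) / (1 - σ) ≤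
        (Pz σ * DirichletCharacter.LFunction ψ σ / (σ - 1)).re := by
  obtain ⟨C₀, hC₀, hC⟩ := Pz_bound
  refine ⟨32 * (C₀ * 343), by linarith, ?_⟩
  intro N _ ψ hψ hψ2 σ h1 h2
  have hN : (1 : ℝ) ≤ N := by
    exact_mod_cast NeZero.one_le
  have hN3 : (N : ℝ) ≤ N ^ 3 := le_self_pow₀ hN (by norm_num)
  have hK : C₀ * (7 * N) ≤ C₀ * 343 * N ^ 3 := by nlinarith
  have hK2 : 7 * (N : ℝ) ≤ C₀ * 343 * N ^ 3 := by nlinarith
  have h := estermann (a := ψ.zetaMul) (fun n => DirichletCharacter.zetaMul_nonneg hψ2 n)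
    (by rw [ψ.isMultiplicative_zetaMul.map_one]; simp)
    (abscissa_lt (DirichletCharacter.LSeriesSummable_zetaMul ψ (by simp; norm_num)))
    (H := fun s => Pz s * DirichletCharacter.LFunction ψ s)
    (Pz_diff.mul (DirichletCharacter.differentiable_LFunction hψ)) (by
      intro s hs
      have hs1 : s ≠ 1 := by
        rintro rfl
        simp at hs
      rw [LS_zetaMul ψ hs]
      unfold Pz
      rw [Function.update_of_ne hs1]
      ring) (K := C₀ * 343 * N ^ 3) (by nlinarith) (by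
      rw [Pz_one, one_mul]
      exact (LF_one ψ hψ).trans hK2) (by
      intro z hz
      rw [norm_mul]
      refine (mul_le_mul (hC z hz) (LF_circ ψ hψ hz) (norm_nonneg _) (by linarith)).trans hK) h1 h2
  simp only [Pz_one, one_mul] at h
  have h3 : 32 * (C₀ * 343) * (N : ℝ) ^ 3 = 32 * (C₀ * 343 * N ^ 3) := by ring
  rw [h3]
  exact h

theorem pair_lower : ∃ C : ℝ, 1 ≤ C ∧ ∀ (N : ℕ) [NeZero N] (ψ₁ ψ₂ : DirichletCharacter ℂ N), ψ₁ ≠ 1 → ψ₁ ^ 2 = 1 →
    ψ₂ ≠ 1 → ψ₂ ^ 2 = 1 → ψ₁ * ψ₂ ≠ 1 → ∀ σ : ℝ, 7 / 8 ≤ σ → σ < 1 →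
      1 / 2 - 3 * ‖DirichletCharacter.LFunction ψ₁ 1 * (DirichletCharacter.LFunction ψ₂ 1 *
        DirichletCharacter.LFunction (ψ₁ * ψ₂) 1)‖ * (C * N ^ 3) ^ (4 * (1 - σ)) / (1 - σ) ≤
        (Pz σ * (DirichletCharacter.LFunction ψ₁ σ * (DirichletCharacter.LFunction ψ₂ σ *
        DirichletCharacter.LFunction (ψ₁ * ψ₂) σ)) / (σ - 1)).re := by
  obtain ⟨C₀, hC₀, hC⟩ := Pz_bound
  refine ⟨32 * (C₀ * 343), by linarith, ?_⟩
  intro N _ ψ₁ ψ₂ hψ₁ hψ₁2 hψ₂ hψ₂2 hψ σ h1 h2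
  have hN : (1 : ℝ) ≤ N := by
    exact_mod_cast NeZero.one_le
  have hN3 : (1 : ℝ) ≤ N ^ 3 := one_le_pow₀ hN
  have h7 : (7 * N : ℝ) * ((7 * N) * (7 * N)) = 343 * N ^ 3 := by ring
  have h := estermann (a := quad ψ₁ ψ₂) (fun n => quad_nonneg hψ₁2 hψ₂2 n)
    (by rw [(quad_mult ψ₁ ψ₂).map_one]; simp)
    (abscissa_lt (summ_quad ψ₁ ψ₂ (by simp; norm_num)))
    (H := fun s => Pz s * (DirichletCharacter.LFunction ψ₁ s * (DirichletCharacter.LFunction ψ₂ s *
        DirichletCharacter.LFunction (ψ₁ * ψ₂) s)))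
    (Pz_diff.mul ((DirichletCharacter.differentiable_LFunction hψ₁).mul
      ((DirichletCharacter.differentiable_LFunction hψ₂).mul (DirichletCharacter.differentiable_LFunction hψ)))) (by
      intro s hs
      have hs1 : s ≠ 1 := by
        rintro rfl
        simp at hs
      rw [LS_quad ψ₁ ψ₂ hs]
      unfold Pz
      rw [Function.update_of_ne hs1]
      ring) (K := C₀ * 343 * N ^ 3) (by nlinarith) (by
      rw [Pz_one, one_mul, norm_mul, norm_mul]
      calc _ ≤ (7 * N : ℝ) * ((7 * N) * (7 * N)) :=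
            mul_le_mul (LF_one _ hψ₁) (mul_le_mul (LF_one _ hψ₂) (LF_one _ hψ) (norm_nonneg _) (by positivity))
              (by positivity) (by positivity)
        _ = 1 * (343 * N ^ 3) := by rw [h7, one_mul]
        _ ≤ C₀ * (343 * N ^ 3) := mul_le_mul_of_nonneg_right hC₀ (by positivity)
        _ = _ := by ring) (by
      intro z hz
      rw [norm_mul, norm_mul, norm_mul]
      calc _ ≤ C₀ * ((7 * N : ℝ) * ((7 * N) * (7 * N))) := by
            apply mul_le_mul (hC z hz) _ (by positivity) (by linarith)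
            exact mul_le_mul (LF_circ _ hψ₁ hz) (mul_le_mul (LF_circ _ hψ₂ hz) (LF_circ _ hψ hz) (norm_nonneg _)
              (by positivity)) (by positivity) (by positivity)
        _ = _ := by rw [h7]; ring) h1 h2
  simp only [Pz_one, one_mul] at h
  have h3 : 32 * (C₀ * 343) * (N : ℝ) ^ 3 = 32 * (C₀ * 343 * N ^ 3) := by ring
  rw [h3]
  exact h

end Pool.Agent.helper62.Sieg
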