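import Pool.Agent.helper62.Sieg.S3
import Pool.Agent.helper10.BV.D8

/-!
# Siegel's theorem, part 4: `|L(1,χ)| ≥ c(ε) q^(-ε)` for real nonprincipal characters
-/

set_option autoImplicit false

open Finset Complex Filter Topology
open DirichletCharacter (LFunction changeLevel)

namespace Pool.Agent.helper62.Sieg

theorem log_bd {η : ℝ} (hη : 0 < η) {N : ℕ} (hN : 1 ≤ N) :
    1 + 2 * Real.log N ≤ (1 + 2 / η) * (N : ℝ) ^ η := by
  have h1 : Real.log N ≤ (N : ℝ) ^ η / η := Real.log_le_rpow_div (Nat.cast_nonneg N) hη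
  have h2 : 1 ≤ (N : ℝ) ^ η := Real.one_le_rpow (by exact_mod_cast hN) hη.le
  calc 1 + 2 * Real.log N ≤ (N : ℝ) ^ η + 2 * ((N : ℝ) ^ η / η) := by linarith
    _ = _ := by ring

theorem LF_cont {N : ℕ} [NeZero N] {ψ : DirichletCharacter ℂ N} (hψ : ψ ≠ 1) :
    Continuous (fun σ : ℝ => LFunction ψ (σ : ℂ)) :=
  (DirichletCharacter.differentiable_LFunction hψ).continuous.comp Complex.continuous_ofReal

theorem LF_one_up : ∃ C : ℝ, 1 ≤ C ∧ ∀ (N : ℕ) [NeZero N] (ψ : DirichletCharacter ℂ N), ψ ≠ 1 →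
    ‖LFunction ψ 1‖ ≤ C * (1 + 2 * Real.log N) := by
  obtain ⟨C, hC, h⟩ := BVM.LUp
  refine ⟨C, hC, fun N _ ψ hψ => ?_⟩
  have hN : 3 ≤ N := BVM.three_le_of_ne_one hψ
  have hN1 : (3 : ℝ) ≤ N := by exact_mod_cast hN
  have hlim : Tendsto (fun σ : ℝ => ‖LFunction ψ (σ : ℂ)‖) (𝓝[>] 1) (𝓝 ‖LFunction ψ ((1 : ℝ) : ℂ)‖) :=
    ((LF_cont hψ).norm.continuousAt).mono_left nhdsWithin_le_nhds
  rw [Complex.ofReal_one] at hlim
  refine le_of_tendsto hlim ?_
  filter_upwards [Ioc_mem_nhdsGT (show (1 : ℝ) < 2 by norm_num)] with σ hσ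
  have h1 := h N ψ hψ 0 (σ : ℂ) (by simpa using hσ.1) (by simpa using hσ.2)
  rw [DirichletCharacter.LFunction_eq_LSeries ψ (by simpa using hσ.1)]
  simp only [pow_zero, mul_one, Nat.factorial_zero, Nat.cast_one, Complex.ofReal_im] at h1
  refine h1.trans ?_
  apply mul_le_mul_of_nonneg_left _ (by linarith)
  unfold BVM.ell
  rw [abs_zero, zero_add, Real.log_mul (by linarith) (by norm_num)]
  have h2 := Real.log_two_lt_d9
  have h3 : 0 ≤ Real.log N := Real.log_nonneg (by linarith)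
  linarith

theorem eul {M : ℕ} (χ : DirichletCharacter ℂ M) {N : ℕ} (hN : N ≠ 0) :
    ‖∏ p ∈ N.primeFactors, (1 - χ (p : ZMod M) * (p : ℂ) ^ (-(1 : ℂ)))‖ ≤ 1 + 2 * Real.log N ∧
      1 ≤ ‖∏ p ∈ N.primeFactors, (1 - χ (p : ZMod M) * (p : ℂ) ^ (-(1 : ℂ)))‖ * (1 + 2 * Real.log N) := by
  set T : ℝ := ∏ p ∈ N.primeFactors, (1 - (p : ℝ)⁻¹) with hT
  have hp : ∀ p ∈ N.primeFactors, (0 : ℝ) < (p : ℝ)⁻¹ ∧ (p : ℝ)⁻¹ ≤ 1 / 2 := by
    intro p hp
    have h2 : (2 : ℝ) ≤ p := by exact_mod_cast (Nat.prime_of_mem_primeFactors hp).two_le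
    refine ⟨by positivity, ?_⟩
    rw [inv_eq_one_div]
    exact one_div_le_one_div_of_le (by norm_num) h2
  have hT0 : 0 < T := Finset.prod_pos fun p h => by
    have := (hp p h).2
    linarith
  have hφ : (N.totient : ℝ) = N * T := by
    have h := congrArg (fun x : ℚ => (x : ℝ)) (Nat.totient_eq_mul_prod_factors N)
    simp only [Rat.cast_natCast, Rat.cast_mul, Rat.cast_prod, Rat.cast_sub, Rat.cast_one, Rat.cast_inv] at h
    exact h
  have hN0 : (0 : ℝ) < N := by positivity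
  have hL : 1 ≤ T * (1 + 2 * Real.log N) := by
    have h := BVM.div_totient_le hN
    rw [hφ] at h
    have h1 : (N : ℝ) / (N * T) = 1 / T := by
      field_simp
    rw [h1, div_le_iff₀ hT0] at h
    linarith
  have hterm : ∀ p ∈ N.primeFactors, ‖χ (p : ZMod M) * (p : ℂ) ^ (-(1 : ℂ))‖ ≤ (p : ℝ)⁻¹ := by
    intro p h
    have h1 : (p : ℂ) ^ (-(1 : ℂ)) = (p : ℂ)⁻¹ := by
      rw [Complex.cpow_neg, Complex.cpow_one]
    rw [h1, norm_mul, norm_inv, Complex.norm_natCast]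
    have h2 := DirichletCharacter.norm_le_one χ (p : ZMod M)
    have h3 := (hp p h).1
    nlinarith
  have hlow : T ≤ ‖∏ p ∈ N.primeFactors, (1 - χ (p : ZMod M) * (p : ℂ) ^ (-(1 : ℂ)))‖ := by
    rw [norm_prod]
    apply Finset.prod_le_prod
    · intro p h
      have := (hp p h).2
      linarith
    · intro p h
      have h1 := norm_sub_norm_le (1 : ℂ) (χ (p : ZMod M) * (p : ℂ) ^ (-(1 : ℂ)))
      rw [norm_one] at h1
      have := hterm p h
      linarith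
  have hup : ‖∏ p ∈ N.primeFactors, (1 - χ (p : ZMod M) * (p : ℂ) ^ (-(1 : ℂ)))‖ * T ≤ 1 := by
    rw [norm_prod, hT, ← Finset.prod_mul_distrib]
    apply Finset.prod_le_one
    · intro p h
      have := (hp p h).2
      exact mul_nonneg (norm_nonneg _) (by linarith)
    · intro p h
      have h1 := norm_sub_le (1 : ℂ) (χ (p : ZMod M) * (p : ℂ) ^ (-(1 : ℂ)))
      rw [norm_one] at h1
      have h2 := hterm p h
      have h3 := hp p h
      calc _ ≤ (1 + (p : ℝ)⁻¹) * (1 - (p : ℝ)⁻¹) :=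
            mul_le_mul_of_nonneg_right (by linarith) (by linarith [h3.2])
        _ ≤ 1 := by nlinarith [sq_nonneg ((p : ℝ)⁻¹)]
  have hL0 : 0 < 1 + 2 * Real.log N := by
    by_contra hcon
    push Not at hcon
    have := mul_nonpos_of_nonneg_of_nonpos hT0.le hcon
    linarith
  constructor
  · have h1 : ‖∏ p ∈ N.primeFactors, (1 - χ (p : ZMod M) * (p : ℂ) ^ (-(1 : ℂ)))‖ * T * (1 + 2 * Real.log N) ≤
        1 * (1 + 2 * Real.log N) := mul_le_mul_of_nonneg_right hup hL0.le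
    have h2 := mul_le_mul_of_nonneg_left hL
      (norm_nonneg (∏ p ∈ N.primeFactors, (1 - χ (p : ZMod M) * (p : ℂ) ^ (-(1 : ℂ)))))
    linarith
  · exact hL.trans (mul_le_mul_of_nonneg_right hlow hL0.le)

/-- comparison of `L(1,χ)` with the induced character -/
theorem LF_level {M N : ℕ} [NeZero M] [NeZero N] (hMN : M ∣ N) (χ : DirichletCharacter ℂ M) (hχ : χ ≠ 1) :
    ‖LFunction (changeLevel hMN χ) 1‖ ≤ ‖LFunction χ 1‖ * (1 + 2 * Real.log N) ∧
      ‖LFunction χ 1‖ ≤ ‖LFunction (changeLevel hMN χ) 1‖ * (1 + 2 * Real.log N) := by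
  have h := eul χ (NeZero.ne N)
  rw [DirichletCharacter.LFunction_changeLevel hMN χ (Or.inl hχ), norm_mul]
  refine ⟨mul_le_mul_of_nonneg_left h.1 (norm_nonneg _), ?_⟩
  have h1 := mul_le_mul_of_nonneg_left h.2 (norm_nonneg (LFunction χ 1))
  linarith

/-- if there is no zero to the right of `β`, then `L(β,χ) > 0` -/
theorem LF_pos {N : ℕ} [NeZero N] {χ : DirichletCharacter ℂ N} (hχ : χ ≠ 1) (h2 : χ ^ 2 = 1) {β : ℝ}
    (hβ : 0 < β) (hz : ∀ σ : ℝ, β ≤ σ → σ < 1 → LFunction χ (σ : ℂ) ≠ 0) :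
    0 < (LFunction χ (β : ℂ)).re := by
  have hlim : Tendsto (fun x : ℝ ↦ LSeries (fun n => χ (n : ZMod N)) x) atTop (𝓝 (χ ((1 : ℕ) : ZMod N))) := by
    apply LSeries.tendsto_atTop
    have h : LSeries.abscissaOfAbsConv (fun n => χ (n : ZMod N)) = 1 :=
      DirichletCharacter.absicssaOfAbsConv_eq_one (NeZero.ne N) χ
    rw [h]
    exact EReal.coe_lt_top 1
  rw [Nat.cast_one, map_one] at hlim
  have hre : Tendsto (fun x : ℝ ↦ (LSeries (fun n => χ (n : ZMod N)) x).re) atTop (𝓝 (1 : ℂ).re) :=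
    (Complex.continuous_re.tendsto _).comp hlim
  have hev : ∀ᶠ x : ℝ in atTop, 0 < (LSeries (fun n => χ (n : ZMod N)) x).re :=
    hre.eventually_const_lt (by simp)
  obtain ⟨σ₀, hσ₀, hσ₁, hσβ⟩ := (hev.and ((eventually_gt_atTop 1).and (eventually_ge_atTop β))).exists
  by_contra hcon
  push Not at hcon
  have hf : ContinuousOn (fun σ : ℝ => (LFunction χ (σ : ℂ)).re) (Set.Icc β σ₀) :=
    (Complex.continuous_re.comp (LF_cont hχ)).continuousOn
  have h0 : (0 : ℝ) ∈ Set.Icc (LFunction χ (β : ℂ)).re (LFunction χ (σ₀ : ℂ)).re := by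
    refine ⟨hcon, ?_⟩
    rw [DirichletCharacter.LFunction_eq_LSeries χ (by simpa using hσ₁)]
    exact hσ₀.le
  obtain ⟨σ, hσ, h3⟩ := intermediate_value_Icc hσβ hf h0
  have h4 : LFunction χ (σ : ℂ) = 0 := by
    rw [LF_real χ hχ h2 (lt_of_lt_of_le hβ hσ.1)]
    simp only at h3
    rw [h3]
    simp
  by_cases h1 : σ < 1
  · exact hz σ hσ.1 h1 h4
  · push Not at h1
    exact DirichletCharacter.LFunction_ne_zero_of_one_le_re χ (Or.inl hχ) (by simpa using h1) h4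

end Pool.Agent.helper62.Sieg
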