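import Pool.Agent.helper62.Sieg.S4

/-!
# Siegel's theorem, part 5: `|L(1,χ)| ≥ c(ε) q^(-ε)` for real nonprincipal characters
-/

set_option autoImplicit false

open Finset Complex Filter Topology
open DirichletCharacter (LFunction changeLevel)

namespace Pool.Agent.helper62.Sieg

/-- the real part of `(s-1) ζ(s)` is positive near `1` -/
theorem Pz_pos : ∃ δ : ℝ, 0 < δ ∧ ∀ σ : ℝ, 1 - δ ≤ σ → σ ≤ 1 → 0 ≤ (Pz (σ : ℂ)).re := by
  have hc : Continuous (fun σ : ℝ => (Pz (σ : ℂ)).re) :=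
    Complex.continuous_re.comp (Pz_diff.continuous.comp Complex.continuous_ofReal)
  have h1 : (0 : ℝ) < (Pz ((1 : ℝ) : ℂ)).re := by
    rw [Complex.ofReal_one, Pz_one, Complex.one_re]
    exact one_pos
  obtain ⟨ε, hε, h⟩ := Metric.eventually_nhds_iff.1 ((hc.tendsto 1).eventually_const_lt h1)
  refine ⟨ε / 2, by linarith, fun σ h2 h3 => (h ?_).le⟩
  rw [Real.dist_eq, abs_lt]
  constructor <;> linarith

/-- the case of one exceptional zero -/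
private theorem case_zero {ε : ℝ} (hε : 0 < ε) {δ : ℝ} (hδ8 : δ ≤ 1 / 8) (hδε : 24 * δ ≤ ε)
    {q₁ : ℕ} [NeZero q₁] (χ₁ : DirichletCharacter ℂ q₁) (hχ₁ : χ₁ ≠ 1) (hχ₁2 : χ₁ ^ 2 = 1) {β : ℝ}
    (hβ1 : 1 - δ ≤ β) (hβ2 : β < 1) (hz : LFunction χ₁ (β : ℂ) = 0) :
    ∃ c : ℝ, 0 < c ∧ ∀ (q : ℕ) [NeZero q] (χ : DirichletCharacter ℂ q), χ ≠ 1 → χ ^ 2 = 1 →
      c * (q : ℝ) ^ (-ε) ≤ ‖LFunction χ 1‖ := by
  obtain ⟨D, hD, hup⟩ := LF_one_up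
  obtain ⟨C, hC, hpair⟩ := pair_lower
  have hδ0 : 0 < δ := by linarith
  set η : ℝ := ε / 6 with hη
  have hη0 : 0 < η := by rw [hη]; linarith
  set E : ℝ := 1 + 2 / η with hE
  have hE1 : 1 ≤ E := by
    rw [hE]
    have : 0 < 2 / η := by positivity
    linarith
  have hL1 : 0 < ‖LFunction χ₁ 1‖ := by
    rw [norm_pos_iff]
    exact DirichletCharacter.LFunction_ne_zero_of_one_le_re χ₁ (Or.inl hχ₁) (by simp)
  have hq₁ : (1 : ℝ) ≤ q₁ := by exact_mod_cast (NeZero.one_le (n := q₁))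
  have hq₁0 : (0 : ℝ) < q₁ := by linarith
  set W : ℝ := 6 * (D * E) ^ 2 * E * C ^ (4 * δ) * (q₁ : ℝ) ^ ε with hW
  have hW0 : 0 < W := by positivity
  set c₁ : ℝ := (1 - β) / W with hc₁
  set c₂ : ℝ := ‖LFunction χ₁ 1‖ / (E ^ 2 * (q₁ : ℝ) ^ ε) with hc₂
  have hc₁0 : 0 < c₁ := div_pos (by linarith) hW0
  have hc₂0 : 0 < c₂ := by positivity
  refine ⟨min c₁ c₂, lt_min hc₁0 hc₂0, ?_⟩
  intro q _ χ hχ hχ2
  have hq : (1 : ℝ) ≤ q := by exact_mod_cast (NeZero.one_le (n := q))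
  have hq0 : (0 : ℝ) < q := by linarith
  have hqε : 0 < (q : ℝ) ^ ε := by positivity
  have hqneg : (q : ℝ) ^ (-ε) = ((q : ℝ) ^ ε)⁻¹ := Real.rpow_neg hq0.le ε
  rw [hqneg, ← div_eq_mul_inv, div_le_iff₀ hqε]
  -- the common level
  have : NeZero (q₁ * q) := ⟨mul_ne_zero (NeZero.ne q₁) (NeZero.ne q)⟩
  have hd₁ : q₁ ∣ q₁ * q := Dvd.intro _ rfl
  have hd : q ∣ q₁ * q := Dvd.intro_left _ rfl
  set N : ℕ := q₁ * q with hN
  set ψ₁ : DirichletCharacter ℂ N := changeLevel hd₁ χ₁ with hψ₁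
  set ψ : DirichletCharacter ℂ N := changeLevel hd χ with hψ
  have hψ₁1 : ψ₁ ≠ 1 := fun h => hχ₁ ((DirichletCharacter.changeLevel_eq_one_iff hd₁).1 h)
  have hψ1 : ψ ≠ 1 := fun h => hχ ((DirichletCharacter.changeLevel_eq_one_iff hd).1 h)
  have hψ₁2 : ψ₁ ^ 2 = 1 := by rw [hψ₁, ← map_pow, hχ₁2, map_one]
  have hψ2 : ψ ^ 2 = 1 := by rw [hψ, ← map_pow, hχ2, map_one]
  have hN1 : 1 ≤ N := NeZero.one_le
  have hNR : (1 : ℝ) ≤ N := by exact_mod_cast hN1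
  have hNR0 : (0 : ℝ) < N := by linarith
  have hNε : (N : ℝ) ^ ε = (q₁ : ℝ) ^ ε * (q : ℝ) ^ ε := by
    rw [hN]
    push_cast
    exact Real.mul_rpow hq₁0.le hq0.le
  have hlog : 1 + 2 * Real.log N ≤ E * (N : ℝ) ^ η := log_bd hη0 hN1
  have hNη : 1 ≤ (N : ℝ) ^ η := Real.one_le_rpow hNR hη0.le
  have hlev := LF_level hd χ hχ
  have hlev₁ := LF_level hd₁ χ₁ hχ₁
  have hNη2 : ((N : ℝ) ^ η) ^ 2 ≤ (N : ℝ) ^ ε := by
    rw [← Real.rpow_natCast, ← Real.rpow_mul hNR0.le]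
    apply Real.rpow_le_rpow_of_exponent_le hNR
    push_cast
    rw [hη]
    linarith
  by_cases hprod : ψ₁ * ψ = 1
  · -- the same character
    refine (min_le_right c₁ c₂).trans ?_
    have hψψ : ψ = ψ₁ := by
      have h1 : ψ₁ * (ψ₁ * ψ) = ψ₁ := by rw [hprod, mul_one]
      rw [← mul_assoc, ← sq, hψ₁2, one_mul] at h1
      exact h1
    have h1 : ‖LFunction χ₁ 1‖ ≤ ‖LFunction χ 1‖ * (E ^ 2 * (N : ℝ) ^ ε) := by
      calc ‖LFunction χ₁ 1‖ ≤ ‖LFunction ψ₁ 1‖ * (1 + 2 * Real.log N) := hlev₁.2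
        _ = ‖LFunction ψ 1‖ * (1 + 2 * Real.log N) := by rw [hψψ]
        _ ≤ ‖LFunction ψ 1‖ * (E * (N : ℝ) ^ η) := mul_le_mul_of_nonneg_left hlog (norm_nonneg _)
        _ ≤ ‖LFunction χ 1‖ * (1 + 2 * Real.log N) * (E * (N : ℝ) ^ η) :=
            mul_le_mul_of_nonneg_right hlev.1 (by positivity)
        _ ≤ ‖LFunction χ 1‖ * (E * (N : ℝ) ^ η) * (E * (N : ℝ) ^ η) :=
            mul_le_mul_of_nonneg_right (mul_le_mul_of_nonneg_left hlog (norm_nonneg _)) (by positivity)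
        _ = ‖LFunction χ 1‖ * (E ^ 2 * ((N : ℝ) ^ η) ^ 2) := by ring
        _ ≤ _ := by
            apply mul_le_mul_of_nonneg_left _ (norm_nonneg _)
            exact mul_le_mul_of_nonneg_left hNη2 (by positivity)
    rw [hc₂, div_le_iff₀ (by positivity)]
    refine h1.trans (le_of_eq ?_)
    rw [hNε]
    ring
  · refine (min_le_left c₁ c₂).trans ?_
    have h1 := hpair N ψ₁ ψ hψ₁1 hψ₁2 hψ1 hψ2 hprod β (by linarith) hβ2
    have hz' : LFunction ψ₁ (β : ℂ) = 0 := by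
      rw [hψ₁, DirichletCharacter.LFunction_changeLevel hd₁ χ₁ (Or.inl hχ₁), hz, zero_mul]
    rw [hz', zero_mul, mul_zero, zero_div, Complex.zero_re] at h1
    have h1β : 0 < 1 - β := by linarith
    have hCN : 1 ≤ C * (N : ℝ) ^ 3 := by
      have : (1 : ℝ) ≤ (N : ℝ) ^ 3 := one_le_pow₀ hNR
      nlinarith
    have h2 : (C * (N : ℝ) ^ 3) ^ (4 * (1 - β)) ≤ C ^ (4 * δ) * (N : ℝ) ^ (12 * δ) := by
      calc (C * (N : ℝ) ^ 3) ^ (4 * (1 - β)) ≤ (C * (N : ℝ) ^ 3) ^ (4 * δ) :=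
            Real.rpow_le_rpow_of_exponent_le hCN (by linarith)
        _ = C ^ (4 * δ) * ((N : ℝ) ^ 3) ^ (4 * δ) := Real.mul_rpow (by linarith) (by positivity)
        _ = _ := by
            congr 1
            rw [← Real.rpow_natCast, ← Real.rpow_mul hNR0.le]
            congr 1
            push_cast
            ring
    have h3 : ‖LFunction ψ₁ 1 * (LFunction ψ 1 * LFunction (ψ₁ * ψ) 1)‖ ≤
        ‖LFunction χ 1‖ * ((D * E) ^ 2 * E * ((N : ℝ) ^ η) ^ 3) := by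
      rw [norm_mul, norm_mul]
      have ha : ∀ ψ' : DirichletCharacter ℂ N, ψ' ≠ 1 → ‖LFunction ψ' 1‖ ≤ D * E * (N : ℝ) ^ η := by
        intro ψ' hψ'
        calc ‖LFunction ψ' 1‖ ≤ D * (1 + 2 * Real.log N) := hup N ψ' hψ'
          _ ≤ D * (E * (N : ℝ) ^ η) := mul_le_mul_of_nonneg_left hlog (by linarith)
          _ = _ := by ring
      have hb : ‖LFunction ψ 1‖ ≤ ‖LFunction χ 1‖ * (E * (N : ℝ) ^ η) :=
        hlev.1.trans (mul_le_mul_of_nonneg_left hlog (norm_nonneg _))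
      calc _ ≤ (D * E * (N : ℝ) ^ η) * ((‖LFunction χ 1‖ * (E * (N : ℝ) ^ η)) * (D * E * (N : ℝ) ^ η)) := by
            apply mul_le_mul (ha ψ₁ hψ₁1) _ (by positivity) (by positivity)
            exact mul_le_mul hb (ha _ hprod) (norm_nonneg _) (by positivity)
        _ = _ := by ring
    have h4 : ((N : ℝ) ^ η) ^ 3 * (N : ℝ) ^ (12 * δ) ≤ (N : ℝ) ^ ε := by
      rw [← Real.rpow_natCast, ← Real.rpow_mul hNR0.le, ← Real.rpow_add hNR0]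
      apply Real.rpow_le_rpow_of_exponent_le hNR
      push_cast
      rw [hη]
      linarith
    have h5 : 1 / 2 ≤ 3 * ‖LFunction ψ₁ 1 * (LFunction ψ 1 * LFunction (ψ₁ * ψ) 1)‖ *
        (C * (N : ℝ) ^ 3) ^ (4 * (1 - β)) / (1 - β) := by linarith
    rw [le_div_iff₀ h1β] at h5
    have h6 : 3 * ‖LFunction ψ₁ 1 * (LFunction ψ 1 * LFunction (ψ₁ * ψ) 1)‖ *
        (C * (N : ℝ) ^ 3) ^ (4 * (1 - β)) ≤
        3 * (‖LFunction χ 1‖ * ((D * E) ^ 2 * E * ((N : ℝ) ^ η) ^ 3)) * (C ^ (4 * δ) * (N : ℝ) ^ (12 * δ)) :=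
      mul_le_mul (mul_le_mul_of_nonneg_left h3 (by norm_num)) h2 (by positivity) (by positivity)
    have h7 : 3 * (‖LFunction χ 1‖ * ((D * E) ^ 2 * E * ((N : ℝ) ^ η) ^ 3)) * (C ^ (4 * δ) * (N : ℝ) ^ (12 * δ)) ≤
        3 * ‖LFunction χ 1‖ * ((D * E) ^ 2 * E * C ^ (4 * δ)) * (N : ℝ) ^ ε := by
      calc _ = 3 * ‖LFunction χ 1‖ * ((D * E) ^ 2 * E * C ^ (4 * δ)) * (((N : ℝ) ^ η) ^ 3 * (N : ℝ) ^ (12 * δ)) := by
            ring
        _ ≤ _ := mul_le_mul_of_nonneg_left h4 (by positivity)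
    rw [hc₁, div_le_iff₀ hW0]
    have h8 : (1 - β) ≤ ‖LFunction χ 1‖ * (6 * (D * E) ^ 2 * E * C ^ (4 * δ)) * (N : ℝ) ^ ε := by
      have h9 := h5.trans (h6.trans h7)
      have h10 : (1 - β) ≤ 2 * (3 * ‖LFunction χ 1‖ * ((D * E) ^ 2 * E * C ^ (4 * δ)) * (N : ℝ) ^ ε) := by
        linarith only [h9]
      exact h10.trans (le_of_eq (by ring))
    -- W contains q₁^ε
    rw [hNε] at h8
    rw [hW]
    refine h8.trans (le_of_eq (by ring))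

/-- the case without exceptional zeros -/
private theorem case_no {ε : ℝ} {δ : ℝ} (hδ0 : 0 < δ) (hδ8 : δ ≤ 1 / 8) (hδε : 24 * δ ≤ ε)
    (hP : ∀ σ : ℝ, 1 - δ ≤ σ → σ ≤ 1 → 0 ≤ (Pz (σ : ℂ)).re)
    (hno : ∀ (q : ℕ) [NeZero q] (χ : DirichletCharacter ℂ q), χ ≠ 1 → χ ^ 2 = 1 →
      ∀ σ : ℝ, 1 - δ ≤ σ → σ < 1 → LFunction χ (σ : ℂ) ≠ 0) :
    ∃ c : ℝ, 0 < c ∧ ∀ (q : ℕ) [NeZero q] (χ : DirichletCharacter ℂ q), χ ≠ 1 → χ ^ 2 = 1 →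
      c * (q : ℝ) ^ (-ε) ≤ ‖LFunction χ 1‖ := by
  obtain ⟨C, hC, hs⟩ := single_lower
  have hW0 : 0 < 6 * C ^ (4 * δ) := by positivity
  refine ⟨δ / (6 * C ^ (4 * δ)), div_pos hδ0 hW0, ?_⟩
  intro q _ χ hχ hχ2
  have hq : (1 : ℝ) ≤ q := by exact_mod_cast (NeZero.one_le (n := q))
  have hq0 : (0 : ℝ) < q := by linarith
  have hqε : 0 < (q : ℝ) ^ ε := by positivity
  have hqneg : (q : ℝ) ^ (-ε) = ((q : ℝ) ^ ε)⁻¹ := Real.rpow_neg hq0.le ε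
  rw [hqneg, ← div_eq_mul_inv, div_le_iff₀ hqε, div_le_iff₀ hW0]
  have h1 := hs q χ hχ hχ2 (1 - δ) (by linarith) (by linarith)
  have hpos := LF_pos hχ hχ2 (β := 1 - δ) (by linarith) (hno q χ hχ hχ2)
  have hPβ := hP (1 - δ) le_rfl (by linarith)
  have h2 : (Pz ((1 - δ : ℝ) : ℂ) * LFunction χ ((1 - δ : ℝ) : ℂ) / (((1 - δ : ℝ) : ℂ) - 1)).re ≤ 0 := by
    rw [LF_real χ hχ hχ2 (show 0 < 1 - δ by linarith)]
    set r : ℝ := (LFunction χ ((1 - δ : ℝ) : ℂ)).re with hr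
    have h3 : (((1 - δ : ℝ) : ℂ) - 1) = ((-δ : ℝ) : ℂ) := by
      push_cast
      ring
    rw [h3, Complex.div_ofReal_re, Complex.re_mul_ofReal]
    exact div_nonpos_of_nonneg_of_nonpos (mul_nonneg hPβ hpos.le) (by linarith)
  have h3 : 1 / 2 ≤ 3 * ‖LFunction χ 1‖ * (C * (q : ℝ) ^ 3) ^ (4 * (1 - (1 - δ))) / (1 - (1 - δ)) := by
    linarith
  have h4 : 1 - (1 - δ) = δ := by ring
  rw [h4, le_div_iff₀ hδ0] at h3
  have h5 : (C * (q : ℝ) ^ 3) ^ (4 * δ) ≤ C ^ (4 * δ) * (q : ℝ) ^ ε := by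
    calc (C * (q : ℝ) ^ 3) ^ (4 * δ) = C ^ (4 * δ) * ((q : ℝ) ^ 3) ^ (4 * δ) :=
          Real.mul_rpow (by linarith) (by positivity)
      _ = C ^ (4 * δ) * (q : ℝ) ^ (12 * δ) := by
          congr 1
          rw [← Real.rpow_natCast, ← Real.rpow_mul hq0.le]
          congr 1
          push_cast
          ring
      _ ≤ _ := by
          apply mul_le_mul_of_nonneg_left _ (by positivity)
          exact Real.rpow_le_rpow_of_exponent_le hq (by linarith)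
  have h6 : 3 * ‖LFunction χ 1‖ * (C * (q : ℝ) ^ 3) ^ (4 * δ) ≤
      3 * ‖LFunction χ 1‖ * (C ^ (4 * δ) * (q : ℝ) ^ ε) := mul_le_mul_of_nonneg_left h5 (by positivity)
  have h7 : δ ≤ 2 * (3 * ‖LFunction χ 1‖ * (C ^ (4 * δ) * (q : ℝ) ^ ε)) := by linarith only [h3, h6]
  exact h7.trans (le_of_eq (by ring))

/-- **Siegel's theorem** at the point `1` -/
theorem siegel_one {ε : ℝ} (hε : 0 < ε) : ∃ c : ℝ, 0 < c ∧ ∀ (q : ℕ) [NeZero q] (χ : DirichletCharacter ℂ q),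
    χ ≠ 1 → χ ^ 2 = 1 → c * (q : ℝ) ^ (-ε) ≤ ‖LFunction χ 1‖ := by
  obtain ⟨δ₀, hδ₀, hP⟩ := Pz_pos
  set δ : ℝ := min δ₀ (min (1 / 8) (ε / 24)) with hδ
  have hδ0 : 0 < δ := lt_min hδ₀ (lt_min (by norm_num) (by linarith))
  have hδ1 : δ ≤ δ₀ := min_le_left _ _
  have hδ8 : δ ≤ 1 / 8 := (min_le_right _ _).trans (min_le_left _ _)
  have hδε : 24 * δ ≤ ε := by
    have : δ ≤ ε / 24 := (min_le_right _ _).trans (min_le_right _ _)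
    linarith
  by_cases h : ∃ (q₁ : ℕ) (_ : NeZero q₁) (χ₁ : DirichletCharacter ℂ q₁) (β : ℝ), χ₁ ≠ 1 ∧ χ₁ ^ 2 = 1 ∧
      1 - δ ≤ β ∧ β < 1 ∧ LFunction χ₁ (β : ℂ) = 0
  · obtain ⟨q₁, _, χ₁, β, h1, h2, h3, h4, h5⟩ := h
    exact case_zero hε hδ8 hδε χ₁ h1 h2 h3 h4 h5
  · refine case_no hδ0 hδ8 hδε (fun σ h1 h2 => hP σ (by linarith) h2) ?_
    intro q _ χ h1 h2 σ h3 h4 h5
    exact h ⟨q, inferInstance, χ, σ, h1, h2, h3, h4, h5⟩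

end Pool.Agent.helper62.Sieg
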